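import Pool.Agent.KS6_37.Grig.Contain

/-!
# Finite-index normal subgroups and congruence subgroups of the Grigorchuk group
-/

set_option autoImplicit false

namespace Pool.Agent.KS6_37.Grig

theorem rep_fix (m k : ℕ) (h : k ≤ m + 1) :
    at_ (List.replicate m false) t (List.replicate k false) = List.replicate k false := by
  induction m generalizing k with
  | zero =>
    interval_cases k
    · rfl
    · rfl
  | succ m ih =>
    cases k with
    | zero => rfl
    | succ k =>
      rw [List.replicate_succ, List.replicate_succ, at_false, pr_false, ih k (by omega)]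

theorem rep_move (m : ℕ) :
    at_ (List.replicate m false) t (List.replicate (m + 2) false) ≠
      List.replicate (m + 2) false := by
  rw [List.replicate_add, at_apply_append]
  intro h
  have h1 := (List.append_inj h rfl).2
  have h2 : t (List.replicate 2 false) = [false, true] := rfl
  rw [h2] at h1
  simp at h1

instance : Infinite Gam := by
  apply Infinite.of_injective
    (fun n : ℕ => (⟨at_ (List.replicate n false) t, K_le (at_mem_K _ t_mem)⟩ : Gam))
  have key : ∀ m n : ℕ, m < n →
      at_ (List.replicate m false) t ≠ at_ (List.replicate n false) t := by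
    intro m n hmn e
    have := rep_move m
    rw [e] at this
    exact this (rep_fix n (m + 2) (by omega))
  intro m n h
  have h' : at_ (List.replicate m false) t = at_ (List.replicate n false) t :=
    congrArg Subtype.val h
  rcases lt_trichotomy m n with h1 | h1 | h1
  · exact absurd h' (key m n h1)
  · exact h1
  · exact absurd h'.symm (key n m h1)

theorem fin_contain (L : Subgroup Gam) (hn : L.Normal) (hf : L.FiniteIndex) :
    ∃ n, Kn n ≤ L.map Gam.subtype := by
  have hne : L ≠ ⊥ := by
    rintro rfl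
    have := hf.index_ne_zero
    rw [Subgroup.index_bot, Nat.card_eq_zero_of_infinite] at this
    exact this rfl
  obtain ⟨⟨g, hg⟩, hg2⟩ := Subgroup.ne_bot_iff_exists_ne_one.1 hne
  have hg1 : g ≠ 1 := fun h => hg2 (Subtype.ext h)
  have hv : ∃ v, (g : G) v ≠ v := by
    by_contra hcon
    push Not at hcon
    apply hg1
    apply Subtype.ext
    exact Equiv.ext hcon
  obtain ⟨v, hv⟩ := hv
  refine ⟨v.length + 2, contain (L := L.map Gam.subtype) ?_ (g := (g : G))
    (Subgroup.mem_map_of_mem Gam.subtype hg) (SetLike.coe_mem _) hv⟩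
  rintro γ hγ _ ⟨x, hx, rfl⟩
  exact ⟨⟨γ, hγ⟩ * x * ⟨γ, hγ⟩⁻¹, hn.conj_mem x hx _, rfl⟩

/-- sections of elements of the Grigorchuk group -/
theorem sec_mem {γ : G} (h : γ ∈ Gam) :
    ∃ g0 ∈ Gam, ∃ g1 ∈ Gam, γ = pr g0 g1 ∨ γ = pr g0 g1 * a := by
  induction h using Subgroup.closure_induction with
  | mem x hx =>
    simp only [Set.mem_insert_iff, Set.mem_singleton_iff] at hx
    rcases hx with rfl | rfl | rfl | rfl
    · exact ⟨1, one_mem _, 1, one_mem _, Or.inr (by rw [pr_one, one_mul])⟩
    · exact ⟨a, a_mem, c, c_mem, Or.inl b_eq⟩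
    · exact ⟨a, a_mem, d, d_mem, Or.inl c_eq⟩
    · exact ⟨1, one_mem _, b, b_mem, Or.inl d_eq⟩
  | one => exact ⟨1, one_mem _, 1, one_mem _, Or.inl pr_one.symm⟩
  | mul x y _ _ hx hy =>
    obtain ⟨g0, h0, g1, h1, e⟩ := hx
    obtain ⟨k0, l0, k1, l1, e'⟩ := hy
    rcases e with rfl | rfl <;> rcases e' with rfl | rfl
    · exact ⟨_, mul_mem h0 l0, _, mul_mem h1 l1, Or.inl (pr_mul _ _ _ _)⟩
    · exact ⟨_, mul_mem h0 l0, _, mul_mem h1 l1, Or.inr (by rw [← mul_assoc, pr_mul])⟩
    · exact ⟨_, mul_mem h0 l1, _, mul_mem h1 l0, Or.inr (by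
        rw [mul_assoc, a_pr, ← mul_assoc, pr_mul])⟩
    · exact ⟨_, mul_mem h0 l1, _, mul_mem h1 l0, Or.inl (by
        rw [mul_assoc, ← mul_assoc a, a_pr, mul_assoc, a_a, mul_one, pr_mul])⟩
  | inv x _ hx =>
    obtain ⟨g0, h0, g1, h1, e⟩ := hx
    rcases e with rfl | rfl
    · exact ⟨_, inv_mem h0, _, inv_mem h1, Or.inl (pr_inv _ _)⟩
    · exact ⟨_, inv_mem h1, _, inv_mem h0, Or.inr (by rw [mul_inv_rev, a_inv, pr_inv, a_pr])⟩

/-- the third level picture of elements of `K` -/
def QQ (g : G) : Prop := ∃ u x0 x1 : Bool, ∀ p q r : Bool,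
  g [p, q, r] = [p, xor q u, xor (xor r (cond p x1 x0)) (q && u)]

theorem qq_one : QQ 1 := ⟨false, false, false, fun p q r => by cases p <;> simp⟩

theorem qq_mul {g h : G} (hg : QQ g) (hh : QQ h) : QQ (g * h) := by
  obtain ⟨u, x0, x1, e⟩ := hg
  obtain ⟨u', x0', x1', e'⟩ := hh
  refine ⟨xor u u', xor (xor x0 x0') (u && u'), xor (xor x1 x1') (u && u'), fun p q r => ?_⟩
  rw [Equiv.Perm.mul_apply, e', e]
  cases p <;> cases q <;> cases r <;> cases u <;> cases u' <;> cases x0 <;> cases x0' <;>
    cases x1 <;> cases x1' <;> rfl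

theorem qq_inv {g : G} (hg : QQ g) : QQ g⁻¹ := by
  obtain ⟨u, x0, x1, e⟩ := hg
  refine ⟨u, xor x0 u, xor x1 u, fun p q r => ?_⟩
  apply g.injective
  rw [ap_inv, e]
  cases p <;> cases q <;> cases u <;> simp

/-- elements with this third level picture -/
def QS : Subgroup G where
  carrier := {g | QQ g}
  one_mem' := qq_one
  mul_mem' := qq_mul
  inv_mem' := qq_inv

theorem qq_conj {σ : G} (hσ : σ ∈ ({a, b, c, d} : Set G)) {g : G} (hg : QQ g) :
    QQ (σ * g * σ⁻¹) := by
  obtain ⟨u, x0, x1, e⟩ := hg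
  simp only [Set.mem_insert_iff, Set.mem_singleton_iff] at hσ
  rcases hσ with rfl | rfl | rfl | rfl
  · refine ⟨u, x1, x0, fun p q r => ?_⟩
    rw [a_inv, Equiv.Perm.mul_apply, Equiv.Perm.mul_apply]
    cases p <;> simp [e]
  · refine ⟨u, xor x0 u, xor x1 u, fun p q r => ?_⟩
    rw [b_inv, Equiv.Perm.mul_apply, Equiv.Perm.mul_apply]
    cases p <;> cases q <;> cases r <;> cases u <;> cases x0 <;> cases x1 <;> simp [e]
  · refine ⟨u, xor x0 u, x1, fun p q r => ?_⟩
    rw [c_inv, Equiv.Perm.mul_apply, Equiv.Perm.mul_apply]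
    cases p <;> cases q <;> cases r <;> cases u <;> cases x0 <;> cases x1 <;> simp [e]
  · refine ⟨u, x0, xor x1 u, fun p q r => ?_⟩
    rw [d_inv, Equiv.Perm.mul_apply, Equiv.Perm.mul_apply]
    cases p <;> cases q <;> cases r <;> cases u <;> cases x0 <;> cases x1 <;> simp [e]

theorem gen_inv {σ : G} (hσ : σ ∈ ({a, b, c, d} : Set G)) : σ⁻¹ = σ := by
  simp only [Set.mem_insert_iff, Set.mem_singleton_iff] at hσ
  rcases hσ with rfl | rfl | rfl | rfl
  exacts [a_inv, b_inv, c_inv, d_inv]

theorem K_le_QS : K ≤ QS := by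
  apply ncl_le
  · rintro _ rfl
    refine ⟨true, false, true, fun p q r => ?_⟩
    cases p <;> cases q <;> cases r <;> rfl
  · apply nz_of_gen
    · intro g hg x hx
      exact qq_conj hg hx
    · intro g hg x hx
      have := qq_conj hg hx
      rw [gen_inv hg] at this ⊢
      exact this

/-- `b^i d^j (ada)^l` -/
def form (i j l : Bool) : G := cond i b 1 * (cond j d 1 * cond l (pr b 1) 1)

/-- `b^i d^j (ada)^l K` -/
def InE (g : G) : Prop := ∃ i j l : Bool, ∃ k ∈ K, g = form i j l * k

theorem e_d : pr b 1 * d = d * pr b 1 := by rw [pr_d, d_pr, one_mul, mul_one]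
theorem e_e : pr b 1 * pr b 1 = 1 := by rw [pr_mul, b_b, one_mul, pr_one]

theorem form_mem (i j l : Bool) : form i j l ∈ Gam := by
  refine mul_mem ?_ (mul_mem ?_ ?_)
  · cases i <;> [exact one_mem _; exact b_mem]
  · cases j <;> [exact one_mem _; exact d_mem]
  · cases l <;> [exact one_mem _; exact mem_ada]

theorem inE_mul_K {g k : G} (hg : InE g) (hk : k ∈ K) : InE (g * k) := by
  obtain ⟨i, j, l, k', hk', rfl⟩ := hg
  exact ⟨i, j, l, k' * k, mul_mem hk' hk, by rw [mul_assoc]⟩

theorem inE_b {g : G} (hg : InE g) : InE (b * g) := by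
  obtain ⟨i, j, l, k, hk, rfl⟩ := hg
  refine ⟨!i, j, l, k, hk, ?_⟩
  cases i
  · simp [form, mul_assoc]
  · simp only [form, cond_true, Bool.not_true, cond_false, one_mul, ← mul_assoc, b_b]

theorem d_b_comm : d * b = b * d := by rw [d_b, b_d]

theorem inE_d {g : G} (hg : InE g) : InE (d * g) := by
  obtain ⟨i, j, l, k, hk, rfl⟩ := hg
  refine ⟨i, !j, l, k, hk, ?_⟩
  have e1 : d * cond i b 1 = cond i b 1 * d := by cases i <;> simp [d_b_comm]
  have e2 : d * cond j d 1 = cond (!j) d 1 := by cases j <;> simp [d_d]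
  rw [form, form, ← mul_assoc, ← mul_assoc d, e1, mul_assoc (cond i b 1), ← mul_assoc d, e2]

theorem inE_e {g : G} (hg : InE g) : InE (pr b 1 * g) := by
  obtain ⟨i, j, l, k, hk, rfl⟩ := hg
  have e2 : pr b 1 * cond j d 1 = cond j d 1 * pr b 1 := by cases j <;> simp [e_d]
  have e3 : pr b 1 * cond l (pr b 1) 1 = cond (!l) (pr b 1) 1 := by cases l <;> simp [e_e]
  have e4 : pr b 1 * (cond j d 1 * cond l (pr b 1) 1) = cond j d 1 * cond (!l) (pr b 1) 1 := by
    rw [← mul_assoc, e2, mul_assoc, e3]
  cases i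
  · refine ⟨false, j, !l, k, hk, ?_⟩
    simp only [form, cond_false, one_mul]
    rw [← mul_assoc, e4]
  · have hκ : pr b 1 * b * pr b 1 * b ∈ K := by
      have : pr b 1 * b * pr b 1 * b = at0 t⁻¹ := by
        rw [pr_b, pr_mul, pr_b, at0_apply, one_mul, mul_one, c_c, t, mul_inv_rev, mul_inv_rev,
          a_inv, b_inv]
        simp only [mul_assoc]
      rw [this]
      exact at0_mem (inv_mem t_mem)
    set y := cond j d 1 * cond l (pr b 1) 1 with hy
    have hyG : y ∈ Gam := by
      have := form_mem false j l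
      simpa [form] using this
    refine ⟨true, j, !l, (y⁻¹ * (pr b 1 * b * pr b 1 * b) * y) * k, mul_mem ?_ hk, ?_⟩
    · have := K_nz y⁻¹ (inv_mem hyG) _ hκ
      rwa [inv_inv] at this
    · simp only [form, cond_true]
      rw [← hy, ← e4]
      have h1 : pr b 1 * b = b * pr b 1 * (pr b 1 * b * pr b 1 * b) := by
        rw [show b * pr b 1 * (pr b 1 * b * pr b 1 * b) =
          b * (pr b 1 * pr b 1) * b * (pr b 1 * b) by simp only [mul_assoc], e_e, mul_one, b_b,
          one_mul]
      calc pr b 1 * (b * y * k) = (pr b 1 * b) * y * k := by simp only [mul_assoc]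
        _ = b * pr b 1 * (pr b 1 * b * pr b 1 * b) * y * k := by rw [← h1]
        _ = _ := by group

theorem t_inv : t⁻¹ = b * a * (b * a) := by
  rw [t, mul_inv_rev, mul_inv_rev, a_inv, b_inv]

theorem inE_dich {γ : G} (hγ : γ ∈ Gam) : InE γ ∨ InE (a * γ) := by
  have stepa : ∀ y : G, (InE y ∨ InE (a * y)) → (InE (a * y) ∨ InE (a * (a * y))) := by
    intro y hy
    rw [a_a']
    exact hy.symm
  have stepb : ∀ y ∈ Gam, (InE y ∨ InE (a * y)) → (InE (b * y) ∨ InE (a * (b * y))) := by
    intro y hyG hy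
    rcases hy with hy | hy
    · exact Or.inl (inE_b hy)
    · right
      have hyG' : a * y ∈ Gam := mul_mem a_mem hyG
      have e : a * (b * y) = b * (a * y) * ((a * y)⁻¹ * t⁻¹ * (a * y)) := by
        rw [t_inv, show b * (a * y) * ((a * y)⁻¹ * (b * a * (b * a)) * (a * y)) =
          (b * b) * a * b * (a * a) * y by group, b_b, a_a, one_mul, mul_one, mul_assoc]
      rw [e]
      apply inE_mul_K (inE_b hy)
      have := K_nz (a * y)⁻¹ (inv_mem hyG') _ (inv_mem t_mem)
      rwa [inv_inv] at this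
  have stepd : ∀ y : G, (InE y ∨ InE (a * y)) → (InE (d * y) ∨ InE (a * (d * y))) := by
    intro y hy
    rcases hy with hy | hy
    · exact Or.inl (inE_d hy)
    · right
      have e : a * (d * y) = pr b 1 * (a * y) := by
        rw [← ada, show a * (d * a) * (a * y) = a * d * (a * a) * y by simp only [mul_assoc], a_a,
          mul_one, mul_assoc]
      rw [e]
      exact inE_e hy
  have stepc : ∀ y ∈ Gam, (InE y ∨ InE (a * y)) → (InE (c * y) ∨ InE (a * (c * y))) := by
    intro y hyG hy
    have := stepb (d * y) (mul_mem d_mem hyG) (stepd y hy)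
    rwa [← mul_assoc, b_d] at this
  have stepg : ∀ x ∈ ({a, b, c, d} : Set G), ∀ y ∈ Gam, (InE y ∨ InE (a * y)) →
      (InE (x * y) ∨ InE (a * (x * y))) := by
    intro x hx y hyG hy
    simp only [Set.mem_insert_iff, Set.mem_singleton_iff] at hx
    rcases hx with rfl | rfl | rfl | rfl
    exacts [stepa y hy, stepb y hyG hy, stepc y hyG hy, stepd y hy]
  induction hγ using Subgroup.closure_induction_left with
  | one => exact Or.inl ⟨false, false, false, 1, one_mem _, by simp [form]⟩
  | mul_left x hx y hy ih => exact stepg x hx y hy ih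
  | inv_mul_cancel x hx y hy ih => rw [gen_inv hx]; exact stepg x hx y hy ih

theorem form_dec : ∀ i j l u x0 x1 : Bool,
    (∀ p q r : Bool, form i j l [p, xor q u, xor (xor r (cond p x1 x0)) (q && u)] = [p, q, r]) →
    i = false ∧ j = false ∧ l = false := by
  decide

theorem form_head : ∀ i j l q r : Bool, form i j l [false, q, r] ≠ [true, false, false] := by
  decide

theorem closed_zero {γ : G} (hγ : γ ∈ Gam) (h : ∀ v : List Bool, v.length = 3 → γ v = v) :
    γ ∈ K := by
  rcases inE_dich hγ with ⟨i, j, l, k, hk, e⟩ | ⟨i, j, l, k, hk, e⟩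
  · obtain ⟨u, x0, x1, hq⟩ := K_le_QS hk
    have := form_dec i j l u x0 x1 (fun p q r => by
      rw [← hq, ← Equiv.Perm.mul_apply, ← e]
      exact h _ rfl)
    obtain ⟨rfl, rfl, rfl⟩ := this
    rw [e]
    simpa [form] using hk
  · exfalso
    obtain ⟨u, x0, x1, hq⟩ := K_le_QS hk
    have h1 : (a * γ) [false, false, false] = [true, false, false] := by
      rw [Equiv.Perm.mul_apply, h _ rfl]; rfl
    rw [e, Equiv.Perm.mul_apply, hq] at h1
    exact form_head _ _ _ _ _ h1

/-- The level subgroups are closed in the congruence topology. -/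
theorem closed (n : ℕ) : ∀ γ ∈ Gam, (∀ v : List Bool, v.length = n + 3 → γ v = v) → γ ∈ Kn n := by
  induction n with
  | zero => intro γ hγ h; exact closed_zero hγ h
  | succ n ih =>
    intro γ hγ h
    obtain ⟨g0, h0, g1, h1, e⟩ := sec_mem hγ
    rcases e with rfl | rfl
    · rw [Kn_succ]
      apply pr_mem_D
      · apply ih g0 h0
        intro v hv
        have := h (false :: v) (by simp [hv])
        simpa using this
      · apply ih g1 h1
        intro v hv
        have := h (true :: v) (by simp [hv])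
        simpa using this
    · exfalso
      have := h (false :: List.replicate (n + 3) false) (by simp)
      rw [Equiv.Perm.mul_apply, a_false, pr_true] at this
      simp at this

end Pool.Agent.KS6_37.Grig
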