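import Pool.Agent.KS6_37.Grig.Levels

/-!
# Nontrivial normal subgroups contain a level subgroup
-/

set_option autoImplicit false

namespace Pool.Agent.KS6_37.Grig

theorem at_apply_append (v : List Bool) (x : G) (w : List Bool) :
    at_ v x (v ++ w) = v ++ x w := by
  induction v with
  | nil => rfl
  | cons i v ih => cases i <;> simp [at_false, at_true, ih]

theorem at_fix (v : List Bool) (x : G) (w : List Bool) (h : ¬ v <+: w) : at_ v x w = w := by
  induction v generalizing w with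
  | nil => exact absurd (List.nil_prefix) h
  | cons i v ih =>
    cases w with
    | nil => cases i <;> simp [at_false, at_true]
    | cons j w =>
      cases i <;> cases j
      · rw [at_false, pr_false, ih w (fun h' => h (by simpa using h'))]
      · rw [at_false]; rfl
      · rw [at_true]; rfl
      · rw [at_true, pr_true, ih w (fun h' => h (by simpa using h'))]

theorem comm_of_ne {g : G} (hg : Tr g) {v : List Bool} (hv : g v ≠ v) (x y : G) :
    (g * at_ v x * g⁻¹) * at_ v y = at_ v y * (g * at_ v x * g⁻¹) := by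
  apply Equiv.Perm.Disjoint.commute
  intro w
  by_cases h1 : v <+: w
  · left
    rw [Equiv.Perm.mul_apply, Equiv.Perm.mul_apply, at_fix, ap_inv]
    rintro ⟨w2, hw2⟩
    obtain ⟨w1, hw1⟩ := h1
    obtain ⟨u, hu⟩ := (hg v).2 w2
    rw [hw2, ap_inv, ← hw1] at hu
    exact hv ((List.append_inj hu (hg v).1.symm).1.symm)
  · right
    exact at_fix v y w h1

theorem at_mem_K (w : List Bool) {x : G} (hx : x ∈ K) : at_ w x ∈ K := by
  induction w with
  | nil => exact hx
  | cons i w ih => cases i <;> [exact at0_mem ih; exact at1_mem ih]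

theorem t_comm : t⁻¹ * at0 t * t * (at0 t)⁻¹ = at0 (at0 (d * t * d⁻¹)) := by
  have h1 : (c * a)⁻¹ * t * (c * a) * t⁻¹ = at0 (d * t * d⁻¹) := by
    rw [mul_inv_rev, a_inv, c_inv, show a * c * t * (c * a) * t⁻¹ = a * (c * t * c) * a * t⁻¹ by
      simp only [mul_assoc], t_eq, c_pr, pr_c, a_pr, mul_assoc (pr _ _) a a, a_a, mul_one,
      pr_inv, pr_mul, at0_apply]
    congr 1
    · rw [← t_eq, t, mul_inv_rev, a_inv, c_inv, d_inv]
      rw [show d * (a * c) * d * (a * c) = d * a * (c * d) * a * c by simp only [mul_assoc], c_d,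
        show d * (a * b * (a * b)) * d = d * a * b * a * (b * d) by simp only [mul_assoc], b_d]
    · rw [mul_inv_rev, a_inv, c_inv,
        show a * (c * a) * a * (c * a) = a * (c * (a * a) * c) * a by simp only [mul_assoc], a_a,
        mul_one, c_c, mul_one, a_a]
  have h2 : t⁻¹ * at0 t * t * (at0 t)⁻¹ = pr ((c * a)⁻¹ * t * (c * a) * t⁻¹) 1 := by
    have e : ∀ T : G, t⁻¹ * pr T 1 * t * (pr T 1)⁻¹ = pr ((c * a)⁻¹ * T * (c * a) * T⁻¹) 1 := by
      intro T
      rw [t_eq, pr_inv, pr_inv, pr_mul, pr_mul, pr_mul, inv_one, mul_one, mul_one,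
        inv_mul_cancel]
    exact e t
  rw [h2, h1]
  rfl

theorem contain {L : Subgroup G} (hL : Nz Gam L) {g : G} (hg : g ∈ L) (hgG : g ∈ Gam)
    {v : List Bool} (hv : g v ≠ v) : Kn (v.length + 2) ≤ L := by
  have key : ∀ k ∈ K, ∀ l ∈ K, at_ v (k⁻¹ * l * k * l⁻¹) ∈ L := by
    intro k hk l hl
    have hX : at_ v k ∈ Gam := K_le (at_mem_K v hk)
    have hY : at_ v l ∈ Gam := K_le (at_mem_K v hl)
    have h1 : g * at_ v k * g⁻¹ * (at_ v k)⁻¹ ∈ L := by
      rw [show g * at_ v k * g⁻¹ * (at_ v k)⁻¹ = g * (at_ v k * g⁻¹ * (at_ v k)⁻¹) by group]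
      exact mul_mem hg (hL _ hX _ (inv_mem hg))
    have h2 := mul_mem h1 (hL _ hY _ (inv_mem h1))
    have h3 : g * at_ v k * g⁻¹ * at_ v (k⁻¹ * l * k) * (g * at_ v k * g⁻¹)⁻¹ =
        at_ v (k⁻¹ * l * k) := by
      rw [comm_of_ne (tr_Gam hgG) hv]; group
    have h4 : g * at_ v k * g⁻¹ * (at_ v k)⁻¹ *
        (at_ v l * (g * at_ v k * g⁻¹ * (at_ v k)⁻¹)⁻¹ * (at_ v l)⁻¹) =
        at_ v (k⁻¹ * l * k * l⁻¹) := by
      rw [map_mul (at_ v) (k⁻¹ * l * k), ← h3]
      simp only [map_mul, map_inv]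
      group
    rwa [h4] at h2
  have h5 := key t t_mem (at0 t) (at0_mem t_mem)
  rw [t_comm] at h5
  have h6 : at_ (v ++ [false, false]) (d * t * d⁻¹) ∈ L := by
    rw [at_append]; exact h5
  have h7 : Nz Gam (L.comap (at_ (v ++ [false, false]))) := by
    intro γ hγ x hx
    obtain ⟨γ', hγ', e⟩ := fr_at (v ++ [false, false]) γ hγ
    rw [Subgroup.mem_comap, ← e]
    exact hL γ' hγ' _ hx
  have h8 : K ≤ L.comap (at_ (v ++ [false, false])) := by
    apply ncl_le _ h7
    rintro _ rfl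
    have := h7 d d_mem _ (show d * t * d⁻¹ ∈ L.comap (at_ (v ++ [false, false])) from h6)
    rwa [show d * (d * t * d⁻¹) * d⁻¹ = (d * d) * t * (d * d)⁻¹ by group, d_d, one_mul, inv_one,
      mul_one] at this
  apply iter_D_le
  intro w hw x hx
  obtain ⟨γ, hγ, e⟩ := trans_at (v ++ [false, false]) w (by simp [hw])
  rw [← e]
  exact hL γ hγ _ (h8 hx)

end Pool.Agent.KS6_37.Grig
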