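import Pool.Agent.KS6_37.Grig.Sys

/-!
# Overgroups of a group in its profinite completion: a criterion for the congruence subgroup
property
-/

set_option autoImplicit false

namespace Pool.Agent.KS6_37.Crit

open Pool.Agent.KS6_37.Sys ProfiniteGrp.ProfiniteCompletion Monoid

variable (Γ : Type) [Group Γ]

/-- The profinite completion. -/
abbrev Hat : Type := ProfiniteGrp.ProfiniteCompletion.completion (GrpCat.of Γ)

variable {Γ}

/-- the component of `f` at `H` -/
def comp (H : FiniteIndexNormalSubgroup Γ) : Hat Γ →* Γ ⧸ H.toSubgroup where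
  toFun f := f.1 H
  map_one' := rfl
  map_mul' _ _ := rfl

theorem ext_comp {f f' : Hat Γ} (h : ∀ H, comp H f = comp H f') : f = f' :=
  Subtype.ext (funext h)

variable (Γ) in
/-- The canonical map as a homomorphism. -/
def et : Γ →* Hat Γ where
  toFun := etaFn (GrpCat.of Γ)
  map_one' := rfl
  map_mul' _ _ := rfl

theorem comp_et (H : FiniteIndexNormalSubgroup Γ) (γ : Γ) :
    comp H (et Γ γ) = QuotientGroup.mk γ := rfl

theorem comp_comp_et (H : FiniteIndexNormalSubgroup Γ) :
    (comp H).comp (et Γ) = QuotientGroup.mk' H.toSubgroup := rfl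

theorem isOpen_ker (H : FiniteIndexNormalSubgroup Γ) : IsOpen ((comp H).ker : Set (Hat Γ)) := by
  have h1 : Continuous (fun f : (ProfiniteGrp.limitConePtAux (diagram (GrpCat.of Γ))) => f.1 H) :=
    (continuous_apply H).comp continuous_subtype_val
  have h2 : IsOpen ({(1 : Γ ⧸ H.toSubgroup)} : Set ((diagram (GrpCat.of Γ)).obj H)) := by
    have : DiscreteTopology ((diagram (GrpCat.of Γ)).obj H) := ⟨rfl⟩
    exact isOpen_discrete _
  exact h2.preimage h1

theorem dense_et (g : Hat Γ) (M : Subgroup (Hat Γ)) (hM : IsOpen (M : Set (Hat Γ))) :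
    ∃ γ, g⁻¹ * et Γ γ ∈ M := by
  have h1 : IsOpen ((fun x => g⁻¹ * x) ⁻¹' (M : Set (Hat Γ))) := hM.preimage (continuous_const_mul _)
  have h2 : ((fun x => g⁻¹ * x) ⁻¹' (M : Set (Hat Γ))).Nonempty :=
    ⟨g, by simp [M.one_mem]⟩
  obtain ⟨x, hx, ⟨γ, rfl⟩⟩ := (denseRange (G := GrpCat.of Γ)).inter_open_nonempty _ h1 h2
  exact ⟨γ, hx⟩

/-- The congruence subgroup property of a subgroup `Δ` of a topological group `P`: every normal
subgroup of finite index of `Δ` is the intersection of `Δ` with an open normal subgroup of `P`. -/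
def HasCSP {P : Type} [Group P] [TopologicalSpace P] (Δ : Subgroup P) : Prop :=
  ∀ N : Subgroup Δ, N.Normal → N.FiniteIndex →
    ∃ M : Subgroup P, M.Normal ∧ IsOpen (M : Set P) ∧ N = M.subgroupOf Δ

/-- The canonical map to an overgroup. -/
def emb {Δ : Subgroup (Hat Γ)} (h : ∀ γ, et Γ γ ∈ Δ) : Γ →* Δ := (et Γ).codRestrict Δ h

/-- The trace of `N` on `Γ`. -/
def tr {Δ : Subgroup (Hat Γ)} (h : ∀ γ, et Γ γ ∈ Δ) (N : Subgroup Δ) (hN : N.Normal)
    (hf : N.FiniteIndex) : FiniteIndexNormalSubgroup Γ where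
  toSubgroup := N.comap (emb h)
  isNormal' := hN.comap _
  isFiniteIndex' := by
    constructor
    rw [Subgroup.index_comap]
    exact (inferInstance : (N.subgroupOf (emb h).range).FiniteIndex).index_ne_zero

theorem mem_tr {Δ : Subgroup (Hat Γ)} (h : ∀ γ, et Γ γ ∈ Δ) (N : Subgroup Δ) (hN : N.Normal)
    (hf : N.FiniteIndex) (γ : Γ) : γ ∈ (tr h N hN hf).toSubgroup ↔ emb h γ ∈ N := Iff.rfl

/-- In the situation of the congruence subgroup property, `N` is determined by its trace. -/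
theorem csp_iff_ker {Δ : Subgroup (Hat Γ)} (h : ∀ γ, et Γ γ ∈ Δ) :
    HasCSP Δ ↔ ∀ (N : Subgroup Δ) (hN : N.Normal) (hf : N.FiniteIndex),
      N = (comp (tr h N hN hf)).ker.subgroupOf Δ := by
  constructor
  · intro hc N hN hf
    obtain ⟨M, hM, hMo, e⟩ := hc N hN hf
    ext δ
    obtain ⟨γ, hγ⟩ := dense_et (δ : Hat Γ) (M ⊓ (comp (tr h N hN hf)).ker)
      (hMo.inter (isOpen_ker _))
    rw [Subgroup.mem_inf] at hγ
    have h1 : δ ∈ N ↔ emb h γ ∈ N := by
      rw [e, Subgroup.mem_subgroupOf, Subgroup.mem_subgroupOf]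
      have e2 : et Γ γ = (δ : Hat Γ) * ((δ : Hat Γ)⁻¹ * et Γ γ) := by group
      change (δ : Hat Γ) ∈ M ↔ et Γ γ ∈ M
      rw [e2, Subgroup.mul_mem_cancel_right M hγ.1]
    have h2 : δ ∈ (comp (tr h N hN hf)).ker.subgroupOf Δ ↔ emb h γ ∈ N := by
      rw [Subgroup.mem_subgroupOf, MonoidHom.mem_ker]
      have h3 := hγ.2
      rw [MonoidHom.mem_ker, map_mul, map_inv, inv_mul_eq_one, comp_et] at h3
      rw [h3, QuotientGroup.eq_one_iff, mem_tr]
    rw [h1, h2]
  · intro hc N hN hf
    exact ⟨_, inferInstance, isOpen_ker _, hc N hN hf⟩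

/-- The quotient of `Γ` by the trace embeds in `Δ / N`. -/
def bar {Δ : Subgroup (Hat Γ)} (h : ∀ γ, et Γ γ ∈ Δ) (N : Subgroup Δ) (hN : N.Normal)
    (hf : N.FiniteIndex) : Γ ⧸ (tr h N hN hf).toSubgroup →* Δ ⧸ N :=
  QuotientGroup.map _ _ (emb h) le_rfl

theorem bar_mk {Δ : Subgroup (Hat Γ)} (h : ∀ γ, et Γ γ ∈ Δ) (N : Subgroup Δ) (hN : N.Normal)
    (hf : N.FiniteIndex) (γ : Γ) :
    bar h N hN hf (QuotientGroup.mk γ) = QuotientGroup.mk (emb h γ) := rfl

theorem bar_inj {Δ : Subgroup (Hat Γ)} (h : ∀ γ, et Γ γ ∈ Δ) (N : Subgroup Δ) (hN : N.Normal)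
    (hf : N.FiniteIndex) : Function.Injective (bar h N hN hf) := by
  rw [injective_iff_map_eq_one]
  intro x
  obtain ⟨γ, rfl⟩ := QuotientGroup.mk_surjective x
  intro hx
  rw [bar_mk, QuotientGroup.eq_one_iff] at hx
  exact (QuotientGroup.eq_one_iff γ).2 hx

/-- The congruence subgroup property says that the projection `Δ → Δ / N` is continuous, that is,
it is given by the component at the trace. -/
theorem csp_iff_bar {Δ : Subgroup (Hat Γ)} (h : ∀ γ, et Γ γ ∈ Δ) :
    HasCSP Δ ↔ ∀ (N : Subgroup Δ) (hN : N.Normal) (hf : N.FiniteIndex) (δ : Δ),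
      (QuotientGroup.mk δ : Δ ⧸ N) = bar h N hN hf (comp (tr h N hN hf) (δ : Hat Γ)) := by
  rw [csp_iff_ker h]
  constructor
  · intro hc N hN hf δ
    obtain ⟨γ, hγ⟩ := QuotientGroup.mk_surjective (comp (tr h N hN hf) (δ : Hat Γ))
    rw [← hγ, bar_mk, QuotientGroup.eq]
    have e : δ⁻¹ * emb h γ ∈ (comp (tr h N hN hf)).ker.subgroupOf Δ := by
      rw [Subgroup.mem_subgroupOf, MonoidHom.mem_ker]
      change comp (tr h N hN hf) ((δ : Hat Γ)⁻¹ * et Γ γ) = 1
      rw [map_mul, map_inv, comp_et, hγ, inv_mul_cancel]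
    rwa [← hc N hN hf] at e
  · intro hc N hN hf
    ext δ
    rw [← QuotientGroup.eq_one_iff, hc N hN hf, Subgroup.mem_subgroupOf, MonoidHom.mem_ker]
    exact ⟨fun e => bar_inj h N hN hf (by rw [e, map_one]), fun e => by rw [e, map_one]⟩

/-- All finite quotients are nilpotent. -/
def NilQ (G : Type) [Group G] : Prop :=
  ∀ N : Subgroup G, ∀ _ : N.Normal, N.FiniteIndex → Group.IsNilpotent (G ⧸ N)

/-- Existence and uniqueness of the solutions of systems of equations. -/
theorem exists_unique_sol {J : Type} (hΓ : NilQ Γ) (w : J → Word Γ J) (hw : ∀ j, Bal (w j)) :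
    ∃! g : J → Hat Γ, ∀ j, g j = ev (et Γ) g (w j) := by
  have hnil : ∀ H : FiniteIndexNormalSubgroup Γ, Group.IsNilpotent (Γ ⧸ H.toSubgroup) :=
    fun H => hΓ H.toSubgroup H.isNormal' H.isFiniteIndex'
  have hex : ∀ H : FiniteIndexNormalSubgroup Γ, ∃ x : J → Γ ⧸ H.toSubgroup,
      ∀ j, x j = ev (QuotientGroup.mk' H.toSubgroup) x (w j) := fun H => by
    have := hnil H
    exact exis _ w hw
  choose x hx using hex
  have hcompat : ∀ (H H' : FiniteIndexNormalSubgroup Γ) (hle : H ≤ H') (j : J),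
      QuotientGroup.map _ _ (MonoidHom.id _) (show H.toSubgroup ≤ H'.toSubgroup.comap
        (MonoidHom.id _) from hle) (x H j) = x H' j := by
    intro H H' hle j
    have := hnil H'
    let f := QuotientGroup.map _ _ (MonoidHom.id _) (show H.toSubgroup ≤ H'.toSubgroup.comap
        (MonoidHom.id _) from hle)
    have e1 : f.comp (QuotientGroup.mk' H.toSubgroup) = QuotientGroup.mk' H'.toSubgroup := rfl
    have key : f.comp (ev (QuotientGroup.mk' H.toSubgroup) (x H)) =
        ev (QuotientGroup.mk' H'.toSubgroup) (x H') := by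
      apply uniq _ w hw
      · intro j
        rw [MonoidHom.comp_apply, MonoidHom.comp_apply, ev_var, ← hx H j]
      · intro j
        rw [ev_var, ← hx H' j]
      · intro γ
        rw [MonoidHom.comp_apply, ev_inl, ev_inl]
        rfl
    have := DFunLike.congr_fun key (var j)
    rw [MonoidHom.comp_apply, ev_var, ev_var] at this
    exact this
  let g : J → Hat Γ := fun j => ⟨fun H => x H j, fun H H' π =>
    hcompat H H' (CategoryTheory.leOfHom π) j⟩
  have hg : ∀ H j, comp H (g j) = x H j := fun _ _ => rfl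
  refine ⟨g, fun j => ?_, fun g' hg' => ?_⟩
  · apply ext_comp
    intro H
    rw [map_ev, comp_comp_et, hg]
    exact hx H j
  · funext j
    apply ext_comp
    intro H
    have := hnil H
    have key : (comp H).comp (ev (et Γ) g') = (comp H).comp (ev (et Γ) g) := by
      apply uniq _ w hw
      · intro j
        rw [MonoidHom.comp_apply, MonoidHom.comp_apply, ev_var, ← hg' j]
      · intro j
        rw [MonoidHom.comp_apply, ev_var, MonoidHom.comp_apply, map_ev, comp_comp_et, hg]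
        exact hx H j
      · intro γ
        simp
    have := DFunLike.congr_fun key (var j)
    rwa [MonoidHom.comp_apply, MonoidHom.comp_apply, ev_var, ev_var] at this

/-- The overgroup generated by `Γ` and the `g j`. -/
def gen {J : Type} (g : J → Hat Γ) : Subgroup (Hat Γ) :=
  Subgroup.closure (Set.range (et Γ) ∪ Set.range g)

theorem et_mem {J : Type} (g : J → Hat Γ) (γ : Γ) : et Γ γ ∈ gen g :=
  Subgroup.subset_closure (Or.inl ⟨γ, rfl⟩)

theorem g_mem {J : Type} (g : J → Hat Γ) (j : J) : g j ∈ gen g :=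
  Subgroup.subset_closure (Or.inr ⟨j, rfl⟩)

/-- The values of words, as elements of the overgroup. -/
def evG {J : Type} (g : J → Hat Γ) : Word Γ J →* gen g :=
  ev (emb (et_mem g)) (fun j => ⟨g j, g_mem g j⟩)

theorem coe_evG {J : Type} (g : J → Hat Γ) (w : Word Γ J) :
    ((evG g w : gen g) : Hat Γ) = ev (et Γ) g w := by
  have := map_ev (gen g).subtype (emb (et_mem g)) (fun j => ⟨g j, g_mem g j⟩) w
  exact this

theorem evG_surj {J : Type} (g : J → Hat Γ) : Function.Surjective (evG g) := by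
  rintro ⟨δ, hδ⟩
  rw [gen, ← range_ev] at hδ
  obtain ⟨w, hw⟩ := hδ
  exact ⟨w, Subtype.ext ((coe_evG g w).trans hw)⟩

/-- The easy direction of the criterion. -/
theorem csp_of_sol {J : Type} (g : J → Hat Γ) (w : J → Word Γ J) (hw : ∀ j, Bal (w j))
    (hg : ∀ j, g j = ev (et Γ) g (w j)) (hn : NilQ (gen g)) : HasCSP (gen g) := by
  rw [csp_iff_bar (et_mem g)]
  intro N hN hf δ
  have := hn N hN hf
  obtain ⟨u, rfl⟩ := evG_surj g δ
  have hg' : ∀ j, (evG g (w j) : gen g) = evG g (var j) := by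
    intro j
    apply Subtype.ext
    rw [coe_evG, coe_evG, ← hg, ev_var]
  have key : (QuotientGroup.mk' N).comp (evG g) = (bar (et_mem g) N hN hf).comp
      ((comp (tr (et_mem g) N hN hf)).comp (ev (et Γ) g)) := by
    apply uniq _ w hw
    · intro j
      rw [MonoidHom.comp_apply, MonoidHom.comp_apply, hg']
    · intro j
      rw [MonoidHom.comp_apply, MonoidHom.comp_apply, MonoidHom.comp_apply, MonoidHom.comp_apply,
        ev_var, ← hg j]
    · intro γ
      rw [MonoidHom.comp_apply, MonoidHom.comp_apply, MonoidHom.comp_apply, evG, ev_inl, ev_inl,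
        comp_et, bar_mk]
      rfl
  have := DFunLike.congr_fun key u
  rw [MonoidHom.comp_apply, MonoidHom.comp_apply, MonoidHom.comp_apply, ← coe_evG] at this
  exact this

/-- Under the congruence subgroup property, the finite quotients are quotients of `Γ`. -/
theorem csp_surj {Δ : Subgroup (Hat Γ)} (h : ∀ γ, et Γ γ ∈ Δ) (hc : HasCSP Δ) (N : Subgroup Δ)
    (hN : N.Normal) (hf : N.FiniteIndex) : Function.Surjective (bar h N hN hf) := by
  intro x
  obtain ⟨δ, rfl⟩ := QuotientGroup.mk_surjective x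
  exact ⟨_, ((csp_iff_bar h).1 hc N hN hf δ).symm⟩

theorem csp_nilQ {Δ : Subgroup (Hat Γ)} (h : ∀ γ, et Γ γ ∈ Δ) (hc : HasCSP Δ) (hΓ : NilQ Γ) :
    NilQ Δ := by
  intro N hN hf
  have := hΓ (tr h N hN hf).toSubgroup (tr h N hN hf).isNormal' (tr h N hN hf).isFiniteIndex'
  exact Group.nilpotent_of_surjective _ (csp_surj h hc N hN hf)

/-- A normal subgroup of finite index that contains `Γ` is everything. -/
theorem csp_top {Δ : Subgroup (Hat Γ)} (h : ∀ γ, et Γ γ ∈ Δ) (hc : HasCSP Δ) (N : Subgroup Δ)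
    (hN : N.Normal) (hf : N.FiniteIndex) (hΓ : ∀ γ, emb h γ ∈ N) : N = ⊤ := by
  rw [Subgroup.eq_top_iff']
  intro δ
  obtain ⟨x, hx⟩ := csp_surj h hc N hN hf (QuotientGroup.mk δ)
  obtain ⟨γ, rfl⟩ := QuotientGroup.mk_surjective x
  rw [bar_mk, (QuotientGroup.eq_one_iff _).2 (hΓ γ)] at hx
  exact (QuotientGroup.eq_one_iff δ).1 hx.symm

end Pool.Agent.KS6_37.Crit
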