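import Pool.Agent.KS6_37.Grig.Crit

/-!
# The criterion, countability, joins
-/

set_option autoImplicit false

namespace Pool.Agent.KS6_37.Crit

open Pool.Agent.KS6_37.Sys ProfiniteGrp.ProfiniteCompletion Monoid

/-- A finitely generated abelian group without proper subgroups of finite index is trivial. -/
theorem trivial_of_fg {A : Type} [CommGroup A] (hA : Group.FG A)
    (h : ∀ S : Subgroup A, S.FiniteIndex → S = ⊤) (x : A) : x = 1 := by
  have h2 : (powMonoidHom 2 : A →* A).range = ⊤ := by
    apply h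
    have : Finite (A ⧸ (powMonoidHom 2 : A →* A).range) := by
      apply CommGroup.finite_of_fg_isMulTorsion
      intro y
      obtain ⟨y, rfl⟩ := QuotientGroup.mk_surjective y
      rw [isOfFinOrder_iff_pow_eq_one]
      refine ⟨2, by norm_num, ?_⟩
      rw [← QuotientGroup.mk_pow, QuotientGroup.eq_one_iff]
      exact ⟨y, rfl⟩
    exact Subgroup.finiteIndex_of_finite_quotient
  have hfin : Module.Finite ℤ (Additive A) := by
    rw [Module.Finite.iff_addGroup_fg]
    infer_instance
  have h3 : (⊤ : Submodule ℤ (Additive A)) ≤ (Ideal.span {(2 : ℤ)}) • ⊤ := by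
    intro y _
    have h4 : Additive.toMul y ∈ (powMonoidHom 2 : A →* A).range := by rw [h2]; trivial
    obtain ⟨u, hu⟩ := h4
    have h5 : y = (2 : ℤ) • (Additive.ofMul u) := by
      have : Additive.ofMul (u ^ 2) = y := by
        rw [show u ^ 2 = Additive.toMul y from hu]; rfl
      rw [← this, ofMul_pow, two_nsmul, two_zsmul]
    rw [h5]
    exact Submodule.smul_mem_smul (Ideal.subset_span rfl) trivial
  obtain ⟨r, hr, hr2⟩ := Submodule.exists_sub_one_mem_and_smul_eq_zero_of_fg_of_le_smul
    (Ideal.span {(2 : ℤ)}) (⊤ : Submodule ℤ (Additive A)) (Module.finite_def.1 hfin) h3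
  have hr0 : r ≠ 0 := by
    rintro rfl
    rw [Ideal.mem_span_singleton] at hr
    omega
  have : Finite A := by
    apply CommGroup.finite_of_fg_isMulTorsion
    intro y
    rw [isOfFinOrder_iff_zpow_eq_one]
    exact ⟨r, hr0, congrArg Additive.toMul (hr2 (Additive.ofMul y) trivial)⟩
  have h6 := h ⊥ inferInstance
  have h7 : x ∈ (⊥ : Subgroup A) := by rw [h6]; trivial
  exact h7

theorem fi_comap {G G' : Type} [Group G] [Group G'] (f : G →* G') {N : Subgroup G'}
    (hN : N.FiniteIndex) : (N.comap f).FiniteIndex := by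
  constructor
  rw [Subgroup.index_comap]
  exact (inferInstance : (N.subgroupOf f.range).FiniteIndex).index_ne_zero

variable {Γ : Type} [Group Γ]

/-- Under the congruence subgroup property the generators solve a system of equations. -/
theorem sol_of_csp {J : Type} [Finite J] (g : J → Hat Γ) (hc : HasCSP (gen g)) :
    ∃ w : J → Word Γ J, (∀ j, Bal (w j)) ∧ ∀ j, g j = ev (et Γ) g (w j) := by
  let θ : Word Γ J →* Abelianization (FreeGroup J) := Abelianization.of.comp Coprod.snd
  let R : Subgroup (Abelianization (FreeGroup J)) := (evG g).ker.map θ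
  have hθ : Function.Surjective θ := fun y => by
    obtain ⟨y, rfl⟩ := (QuotientGroup.mk_surjective (s := commutator (FreeGroup J))) y
    exact ⟨Coprod.inr y, rfl⟩
  let q := QuotientGroup.mk' R
  have htriv : ∀ x : Abelianization (FreeGroup J) ⧸ R, x = 1 := by
    apply trivial_of_fg
    · have h0 : Function.Surjective (Abelianization.of : FreeGroup J →* _) :=
        QuotientGroup.mk_surjective (s := commutator (FreeGroup J))
      exact Group.fg_of_surjective (f := q.comp Abelianization.of)
        ((QuotientGroup.mk'_surjective R).comp h0)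
    · intro S hS
      have h1 : ((S.comap q).comap θ).FiniteIndex := fi_comap _ (fi_comap _ hS)
      have h2 : (((S.comap q).comap θ).map (evG g)).FiniteIndex := by
        constructor
        intro h0
        have := Subgroup.index_map_dvd ((S.comap q).comap θ) (evG_surj g)
        rw [h0, zero_dvd_iff] at this
        exact h1.index_ne_zero this
      have h3 : (((S.comap q).comap θ).map (evG g)).Normal :=
        Subgroup.Normal.map inferInstance _ (evG_surj g)
      have h4 := csp_top (et_mem g) hc _ h3 h2 (by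
        intro γ
        refine ⟨Coprod.inl γ, ?_, ?_⟩
        · simp only [Subgroup.coe_comap, Set.mem_preimage, SetLike.mem_coe]
          have : θ (Coprod.inl γ) = 1 := by simp [θ]
          rw [this, map_one]
          exact S.one_mem
        · exact ev_inl _ _ _)
      rw [Subgroup.eq_top_iff']
      intro y
      obtain ⟨y, rfl⟩ := QuotientGroup.mk_surjective y
      obtain ⟨u, rfl⟩ := hθ y
      have h5 : evG g u ∈ ((S.comap q).comap θ).map (evG g) := by rw [h4]; trivial
      obtain ⟨v, hv, e⟩ := h5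
      have h6 : θ (v⁻¹ * u) ∈ R := ⟨v⁻¹ * u, by
        rw [SetLike.mem_coe, MonoidHom.mem_ker, map_mul, map_inv, e, inv_mul_cancel], rfl⟩
      have h7 : q (θ v) = q (θ u) := by
        apply QuotientGroup.eq.2
        rwa [← map_inv, ← map_mul]
      have h8 : q (θ v) ∈ S := hv
      rw [h7] at h8
      exact h8
  have key : ∀ j, ∃ w : Word Γ J, Bal w ∧ g j = ev (et Γ) g w := by
    intro j
    have h1 : θ (var j) ∈ R := (QuotientGroup.eq_one_iff _).1 (htriv (QuotientGroup.mk (θ (var j))))
    obtain ⟨r, hr, e⟩ := h1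
    refine ⟨var j * r⁻¹, ?_, ?_⟩
    · change θ (var j * r⁻¹) = 1
      rw [map_mul, map_inv, e, mul_inv_cancel]
    · rw [← coe_evG, map_mul, map_inv, show evG g r = 1 from hr, inv_one, mul_one, coe_evG, ev_var]
  choose w hw using key
  exact ⟨w, fun j => (hw j).1, fun j => (hw j).2⟩

/-- **The criterion.** -/
theorem criterion {J : Type} [Finite J] (hΓ : NilQ Γ) (g : J → Hat Γ) : HasCSP (gen g) ↔
    (∃ w : J → Word Γ J, (∀ j, Bal (w j)) ∧ ∀ j, g j = ev (et Γ) g (w j)) ∧ NilQ (gen g) := by
  constructor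
  · intro h
    exact ⟨sol_of_csp g h, csp_nilQ (et_mem g) h hΓ⟩
  · rintro ⟨⟨w, hw, hg⟩, hn⟩
    exact csp_of_sol g w hw hg hn

/-- The join of overgroups with the congruence subgroup property has it as well. -/
theorem csp_sSup (S : Set (Subgroup (Hat Γ))) (hne : S.Nonempty)
    (h : ∀ Δ ∈ S, (∀ γ, et Γ γ ∈ Δ) ∧ HasCSP Δ) : HasCSP (sSup S) := by
  obtain ⟨Δ₀, h0⟩ := hne
  have hmem : ∀ γ, et Γ γ ∈ sSup S := fun γ => (le_sSup h0) ((h _ h0).1 γ)
  rw [csp_iff_bar hmem]
  intro N hN hf
  let E : Subgroup (Hat Γ) :=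
    { carrier := {x | ∃ hx : x ∈ sSup S, (QuotientGroup.mk (⟨x, hx⟩ : ↥(sSup S)) : _ ⧸ N) =
        bar hmem N hN hf (comp (tr hmem N hN hf) x)}
      one_mem' := ⟨one_mem _, by rw [map_one, map_one]; rfl⟩
      mul_mem' := by
        rintro x y ⟨hx, ex⟩ ⟨hy, ey⟩
        refine ⟨mul_mem hx hy, ?_⟩
        rw [map_mul, map_mul, ← ex, ← ey]
        rfl
      inv_mem' := by
        rintro x ⟨hx, ex⟩
        refine ⟨inv_mem hx, ?_⟩
        rw [map_inv, map_inv, ← ex]
        rfl }
  have key : sSup S ≤ E := by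
    apply sSup_le
    intro Δ hΔ δ hδ
    have hle : Δ ≤ sSup S := le_sSup hΔ
    refine ⟨hle hδ, ?_⟩
    have hN' : (N.comap (Subgroup.inclusion hle)).Normal := hN.comap _
    have hf' : (N.comap (Subgroup.inclusion hle)).FiniteIndex := fi_comap _ hf
    have h1 := (csp_iff_bar (h Δ hΔ).1).1 (h Δ hΔ).2 _ hN' hf' ⟨δ, hδ⟩
    obtain ⟨γ, hγ⟩ := QuotientGroup.mk_surjective (comp (tr hmem N hN hf) δ)
    have h3 : comp (tr hmem N hN hf) δ = (QuotientGroup.mk γ : Γ ⧸ (tr hmem N hN hf).toSubgroup) :=
      hγ.symm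
    have h3' : comp (tr (h Δ hΔ).1 _ hN' hf') δ =
      (QuotientGroup.mk γ : Γ ⧸ (tr (h Δ hΔ).1 _ hN' hf').toSubgroup) := h3
    rw [h3, bar_mk, QuotientGroup.eq]
    have h4 : (⟨δ, hδ⟩ : Δ)⁻¹ * emb (h Δ hΔ).1 γ ∈ N.comap (Subgroup.inclusion hle) := by
      rw [← QuotientGroup.eq]
      refine h1.trans ?_
      change bar (h Δ hΔ).1 _ hN' hf' (comp (tr (h Δ hΔ).1 _ hN' hf') δ) = _
      rw [h3']
      rfl
    exact h4
  intro δ
  obtain ⟨hx, ex⟩ := key δ.2
  exact ex

theorem countable_word (J : Type) [Countable Γ] [Countable J] : Countable (Word Γ J) := by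
  exact Coprod.mk_surjective.countable

/-- Countability of the set of tuples that generate an overgroup with the congruence subgroup
property. -/
theorem countable_tuples {J : Type} [Finite J] [Countable Γ] (hΓ : NilQ Γ) :
    {g : J → Hat Γ | HasCSP (gen g)}.Countable := by
  have := countable_word (Γ := Γ) J
  have : Countable (J → Word Γ J) := inferInstance
  choose! w hw hg using fun (g : J → Hat Γ) (h : HasCSP (gen g)) => sol_of_csp g h
  refine Set.MapsTo.countable_of_injOn (f := w) (t := Set.univ) (fun _ _ => trivial) ?_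
    Set.countable_univ
  intro g hg1 g' hg2 e
  obtain ⟨g0, _, h0⟩ := exists_unique_sol hΓ (w g) (hw g hg1)
  rw [h0 g (hg g hg1), h0 g' (by rw [show w g = w g' from e]; exact hg g' hg2)]

/-- Countability of the set of finitely generated overgroups with the congruence subgroup
property. -/
theorem countable_overgroups [Countable Γ] (hΓ : NilQ Γ) :
    {Δ : Subgroup (Hat Γ) | (∀ γ, et Γ γ ∈ Δ) ∧ Δ.FG ∧ HasCSP Δ}.Countable := by
  have h1 : (⋃ n : ℕ, gen '' {g : Fin n → Hat Γ | HasCSP (gen g)}).Countable :=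
    Set.countable_iUnion fun n => (countable_tuples hΓ).image _
  refine h1.mono ?_
  rintro Δ ⟨h2, ⟨s, hs⟩, h3⟩
  have h4 : gen (fun i => ((s.equivFin.symm i : s) : Hat Γ)) = Δ := by
    rw [gen]
    have h5 : Set.range (fun i => ((s.equivFin.symm i : s) : Hat Γ)) = (s : Set (Hat Γ)) := by
      ext x
      constructor
      · rintro ⟨i, rfl⟩
        exact (s.equivFin.symm i).2
      · intro hx
        exact ⟨s.equivFin ⟨x, hx⟩, by simp⟩
    rw [h5]
    apply le_antisymm
    · rw [Subgroup.closure_le]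
      rintro x (⟨γ, rfl⟩ | hx)
      · exact h2 γ
      · rw [← hs]; exact Subgroup.subset_closure hx
    · rw [← hs]
      exact Subgroup.closure_mono Set.subset_union_right
  rw [Set.mem_iUnion]
  refine ⟨s.card, _, ?_, h4⟩
  rw [Set.mem_ofPred_eq, h4]
  exact h3

theorem countable_closure {G : Type} [Group G] {S : Set G} (hS : S.Countable) :
    (Subgroup.closure S : Set G).Countable := by
  have : Countable S := hS.to_subtype
  have e : (Subgroup.closure S : Set G) = Set.range (FreeGroup.lift (Subtype.val : S → G)) := by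
    rw [← MonoidHom.coe_range, FreeGroup.range_lift_eq_closure, Subtype.range_coe]
  rw [e]
  exact Set.countable_range _

/-- The image of `Γ` has the congruence subgroup property. -/
theorem csp_range : HasCSP (et Γ).range := by
  have h : ∀ γ, et Γ γ ∈ (et Γ).range := fun γ => ⟨γ, rfl⟩
  rw [csp_iff_bar h]
  rintro N hN hf ⟨_, ⟨γ, rfl⟩⟩
  rfl

/-- There is a countable overgroup with the congruence subgroup property that contains all
finitely generated ones. -/
theorem largest [Countable Γ] (hΓ : NilQ Γ) : ∃ T : Subgroup (Hat Γ), (T : Set (Hat Γ)).Countable ∧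
    (∀ γ, et Γ γ ∈ T) ∧ HasCSP T ∧
    ∀ Δ : Subgroup (Hat Γ), (∀ γ, et Γ γ ∈ Δ) → Δ.FG → HasCSP Δ → Δ ≤ T := by
  let S : Set (Subgroup (Hat Γ)) :=
    insert (et Γ).range {Δ | (∀ γ, et Γ γ ∈ Δ) ∧ Δ.FG ∧ HasCSP Δ}
  have h1 : (⋃ Δ ∈ S, (Δ : Set (Hat Γ))).Countable := by
    apply Set.Countable.biUnion ((countable_overgroups hΓ).insert _)
    rintro Δ (rfl | ⟨_, ⟨s, hs⟩, _⟩)
    · rw [MonoidHom.coe_range]
      exact Set.countable_range _
    · rw [← hs]
      exact countable_closure s.countable_toSet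
  have h0 : (et Γ).range ∈ S := Set.mem_insert _ _
  refine ⟨sSup S, ?_, fun γ => (le_sSup h0) ⟨γ, rfl⟩, csp_sSup S ⟨_, h0⟩ ?_, ?_⟩
  · have e : sSup S = Subgroup.closure (⋃ Δ ∈ S, (Δ : Set (Hat Γ))) := by
      apply le_antisymm
      · apply sSup_le
        intro Δ hΔ x hx
        exact Subgroup.subset_closure (Set.mem_biUnion hΔ hx)
      · rw [Subgroup.closure_le]
        intro x hx
        obtain ⟨Δ, hΔ, hx⟩ := Set.mem_iUnion₂.1 hx
        exact (le_sSup hΔ) hx
    rw [e]
    exact countable_closure h1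
  · rintro Δ (rfl | ⟨h2, _, h3⟩)
    · exact ⟨fun γ => ⟨γ, rfl⟩, csp_range⟩
    · exact ⟨h2, h3⟩
  · intro Δ h2 h3 h4
    exact le_sSup (Or.inr ⟨h2, h3, h4⟩)

end Pool.Agent.KS6_37.Crit
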