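import Pool.Agent.KS6_37.Grig.Closed

/-!
# The overgroup: it is generated by the Grigorchuk group and any of the normal closures
-/

set_option autoImplicit false

namespace Pool.Agent.KS6_37.Grig

theorem cent_gen {S : Set G} {M : Subgroup G} (hM : Nz (Subgroup.closure S) M)
    (h : ∀ g ∈ S, g * b * g⁻¹ * b⁻¹ ∈ M) :
    ∀ g ∈ Subgroup.closure S, g * b * g⁻¹ * b⁻¹ ∈ M := by
  intro g hg
  induction hg using Subgroup.closure_induction with
  | mem x hx => exact h x hx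
  | one => simp
  | mul x y hx _ ihx ihy =>
    rw [show x * y * b * (x * y)⁻¹ * b⁻¹ =
      (x * (y * b * y⁻¹ * b⁻¹) * x⁻¹) * (x * b * x⁻¹ * b⁻¹) by group]
    exact mul_mem (hM x hx _ ihy) ihx
  | inv x hx ihx =>
    rw [show x⁻¹ * b * x⁻¹⁻¹ * b⁻¹ = x⁻¹ * (x * b * x⁻¹ * b⁻¹)⁻¹ * x⁻¹⁻¹ by group]
    exact hM _ (inv_mem hx) _ (inv_mem ihx)

theorem a_b_comm_mem : a * b * a⁻¹ * b⁻¹ = t := by rw [a_inv, b_inv, t]; simp only [mul_assoc]

theorem cent_K : ∀ g ∈ Gam, g * b * g⁻¹ * b⁻¹ ∈ K := by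
  apply cent_gen K_nz
  intro g hg
  simp only [Set.mem_insert_iff, Set.mem_singleton_iff] at hg
  rcases hg with rfl | rfl | rfl | rfl
  · rw [a_b_comm_mem]; exact t_mem
  · simp
  · rw [c_b, ← b_c]; simp
  · rw [d_b, ← b_d]; simp

theorem ac_four_mem : (a * c) ^ 4 ∈ K := by
  set x := a * d with hx
  have hxG : x ∈ Gam := mul_mem a_mem d_mem
  have hx4 : (x * x) * (x * x) = 1 := by rw [hx, ad_two, pr_mul, b_b, pr_one]
  have h1 : a * c = x * b := by rw [hx, mul_assoc, d_b]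
  have h2 : b * x * b⁻¹ * x⁻¹ ∈ K := by
    rw [show b * x * b⁻¹ * x⁻¹ = (x * b * x⁻¹ * b⁻¹)⁻¹ by group]
    exact inv_mem (cent_K x hxG)
  have h3 : x * (b * x * b⁻¹ * x⁻¹) * x⁻¹ ∈ K := K_nz x hxG _ h2
  have h4 : (x * b) * (x * b) = x * (b * x * b⁻¹ * x⁻¹) * x⁻¹ * (x * x) := by
    conv_lhs => rw [show (x * b) * (x * b) = x * b * x * b⁻¹ by rw [b_inv]; simp only [mul_assoc]]
    group
  have h5 := mul_mem h3 (K_nz (x * x) (mul_mem hxG hxG) _ h3)
  rw [h1, four, h4]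
  generalize x * (b * x * b⁻¹ * x⁻¹) * x⁻¹ = m at h5 ⊢
  have h6 : m * (x * x) * (m * (x * x)) = m * (x * x * m * (x * x)⁻¹) * ((x * x) * (x * x)) := by
    generalize x * x = q
    simp only [mul_assoc, inv_mul_cancel_left]
  rw [h6, hx4, mul_one]
  exact h5

theorem pow_four_mem {H M : Subgroup G} (hM : Nz H M) {x k : G} (hx : x ∈ H) (hk : k ∈ M)
    (h : x ^ 4 ∈ M) : (x * k) ^ 4 ∈ M := by
  have h1 := hM x hx k hk
  have h2 := hM (x * x) (mul_mem hx hx) k hk
  have h3 := hM (x * x * x) (mul_mem (mul_mem hx hx) hx) k hk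
  have h4 := hM (x * x * (x * x)) (mul_mem (mul_mem hx hx) (mul_mem hx hx)) k hk
  have := mul_mem (mul_mem (mul_mem (mul_mem h1 h2) h3) h4) h
  rw [four] at this
  rw [four]
  convert this using 1
  group

/-- three levels at once -/
def D3 (H : Subgroup G) : Subgroup G := D (D (D H))

theorem mem_D3 {H : Subgroup G} {x1 x2 x3 x4 x5 x6 x7 x8 : G} (h1 : x1 ∈ H) (h2 : x2 ∈ H)
    (h3 : x3 ∈ H) (h4 : x4 ∈ H) (h5 : x5 ∈ H) (h6 : x6 ∈ H) (h7 : x7 ∈ H) (h8 : x8 ∈ H) :
    pr (pr (pr x1 x2) (pr x3 x4)) (pr (pr x5 x6) (pr x7 x8)) ∈ D3 H :=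
  pr_mem_D (pr_mem_D (pr_mem_D h1 h2) (pr_mem_D h3 h4)) (pr_mem_D (pr_mem_D h5 h6) (pr_mem_D h7 h8))

theorem D3_mono {H H' : Subgroup G} (h : H ≤ H') : D3 H ≤ D3 H' := D_mono (D_mono (D_mono h))

theorem D3_sup (H H' : Subgroup G) : D3 (H ⊔ H') ≤ D3 H ⊔ D3 H' :=
  (D_mono (D_mono (D_sup _ _))).trans ((D_mono (D_sup _ _)).trans (D_sup _ _))

theorem D3_K : D3 K ≤ K := (D_mono (D_mono D_K)).trans ((D_mono D_K).trans D_K)

theorem iter_D3 (k : ℕ) : D3^[k] K = Kn (3 * k) := by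
  rw [Kn, Function.iterate_mul]
  rfl

theorem nz_D3 {H : Subgroup G} (hH : Nz Gam H) : Nz Gam (D3 H) := nz_D (nz_D (nz_D hH))

/-- The overgroup generated by the Grigorchuk group and `y`. -/
def Dl (y : G) : Subgroup G := Subgroup.closure {a, b, c, d, y}

section

variable {y : G} (hs : step y = y) (hr : Rel y) (hA : A y = y)

theorem Gam_le (y : G) : Gam ≤ Dl y := by
  apply Subgroup.closure_mono
  intro x hx
  simp only [Set.mem_insert_iff, Set.mem_singleton_iff] at hx ⊢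
  tauto

theorem y_mem (y : G) : y ∈ Dl y := Subgroup.subset_closure (by simp)

theorem Z_mem (y : G) : Z y ∈ Dl y :=
  pow_mem (mul_mem (Gam_le y a_mem) (mul_mem (Gam_le y c_mem) (y_mem y))) 4

/-- The normal closure of `K`. -/
def N (y : G) : Subgroup G := ncl (Dl y) K

theorem N_nz (y : G) : Nz (Dl y) (N y) := ncl_nz _ _

theorem K_le_N (y : G) : K ≤ N y := subset_ncl _ _

include hr hA in
theorem y_mem_N : y ∈ N y := by
  have cent : ∀ g ∈ Dl y, g * b * g⁻¹ * b⁻¹ ∈ N y := by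
    apply cent_gen (N_nz y)
    intro g hg
    simp only [Set.mem_insert_iff, Set.mem_singleton_iff] at hg
    rcases hg with rfl | rfl | rfl | rfl | rfl
    · rw [a_b_comm_mem]; exact K_le_N y t_mem
    · simp
    · rw [c_b, ← b_c]; simp
    · rw [d_b, ← b_d]; simp
    · rw [← hr.by']; simp
  set S := Z y * (c * y) with hS
  have hSm : S ∈ Dl y := mul_mem (Z_mem y) (mul_mem (Gam_le y c_mem) (y_mem y))
  have hSS : S * S = 1 := by
    rw [hS]
    nth_rewrite 1 [← hr.pz]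
    rw [mul_assoc, ← mul_assoc (Z y), hr.zz, one_mul, hr.pp]
  have hSi : S⁻¹ = S := inv_eq_of_mul_eq_one_right hSS
  have h1 : S * b * S * d = (S * b * S⁻¹ * b⁻¹) * c := by
    rw [hSi, b_inv, mul_assoc _ b c, b_c]
  have h2 := cent S hSm
  have h3 : (S * b * S * d) ^ 4 ∈ N y := by
    rw [h1, four]
    generalize S * b * S⁻¹ * b⁻¹ = n at h2 ⊢
    have h4 : n * c * (n * c) = n * (c * n * c⁻¹) := by rw [c_inv]; simp only [mul_assoc]
    rw [h4]
    have h5 := mul_mem h2 (N_nz y c (Gam_le y c_mem) n h2)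
    exact mul_mem h5 h5
  have h7 : (S * b * S * d) ^ 4 = y := hA
  rw [h7] at h3
  exact h3

include hr hA in
theorem Z_mem_N : Z y ∈ N y := by
  have : Z y = (a * c * y) ^ 4 := by rw [Z, mul_assoc]
  rw [this]
  exact pow_four_mem (N_nz y) (mul_mem (Gam_le y a_mem) (Gam_le y c_mem)) (y_mem_N hr hA)
    (K_le_N y ac_four_mem)

include hs hr in
theorem nz_D3_Dl {H : Subgroup G} (hH : Nz (Dl y) H) : Nz (Dl y) (D3 H) := by
  have hG : Nz Gam H := fun g hg => hH g (Gam_le y hg)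
  have key : ∀ g ∈ ({a, b, c, d, y} : Set G), ∀ x ∈ D3 H, g * x * g⁻¹ ∈ D3 H := by
    intro g hg x hx
    simp only [Set.mem_insert_iff, Set.mem_singleton_iff] at hg
    rcases hg with rfl | rfl | rfl | rfl | rfl
    · exact nz_D3 hG a a_mem x hx
    · exact nz_D3 hG b b_mem x hx
    · exact nz_D3 hG c c_mem x hx
    · exact nz_D3 hG d d_mem x hx
    · obtain ⟨u, hu, v, hv, rfl⟩ := mem_D.1 hx
      obtain ⟨v0, hv0, v1, hv1, rfl⟩ := mem_D.1 hv
      obtain ⟨v00, hv00, v01, hv01, rfl⟩ := mem_D.1 hv0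
      obtain ⟨v10, hv10, v11, hv11, rfl⟩ := mem_D.1 hv1
      have e : ∀ X : G, step g * X * (step g)⁻¹ = g * X * g⁻¹ := by intro X; rw [hs]
      rw [← e, step, conj_pr, conj_pr, conj_pr, conj_pr]
      simp only [one_mul, inv_one, mul_one]
      have hz := Z_mem g
      exact pr_mem_D hu (pr_mem_D (pr_mem_D (hH _ hz _ hv00) (hH _ hz _ hv01))
        (pr_mem_D hv10 (hH _ (y_mem g) _ hv11)))
  apply nz_of_gen key
  intro g hg x hx
  have hgi : g⁻¹ = g := by
    simp only [Set.mem_insert_iff, Set.mem_singleton_iff] at hg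
    rcases hg with rfl | rfl | rfl | rfl | rfl
    exacts [a_inv, b_inv, c_inv, d_inv, inv_eq_of_mul_eq_one_right hr.yy]
  have := key g hg x hx
  rwa [hgi] at this ⊢

include hs hr hA in
theorem y_mem_D3 : y ∈ D3 (N y) := by
  have hy := y_mem_N hr hA
  have hz := Z_mem_N hr hA
  have : step y ∈ D3 (N y) := by
    rw [step]
    exact pr_mem_D (one_mem _) (pr_mem_D (pr_mem_D hz hz) (pr_mem_D (one_mem _) hy))
  rwa [hs] at this

include hs hr in
theorem iter_nz (k : ℕ) : Nz (Dl y) (D3^[k] (N y)) := by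
  induction k with
  | zero => exact N_nz y
  | succ k ih => rw [Function.iterate_succ_apply']; exact nz_D3_Dl hs hr ih

include hs hr hA in
theorem N_le (k : ℕ) : N y ≤ K ⊔ D3^[k] (N y) := by
  induction k with
  | zero => exact le_sup_right
  | succ k ih =>
    rw [Function.iterate_succ_apply']
    set M := D3^[k] (N y) with hM
    have hMn : Nz (Dl y) (D3 M) := nz_D3_Dl hs hr (iter_nz hs hr k)
    have hyS : y ∈ K ⊔ D3 M := by
      have h1 : D3 (N y) ≤ K ⊔ D3 M :=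
        (D3_mono ih).trans ((D3_sup _ _).trans (sup_le_sup_right D3_K _))
      exact h1 (y_mem_D3 hs hr hA)
    apply ncl_le (fun x hx => Subgroup.mem_sup_left hx)
    have hG : Nz Gam (K ⊔ D3 M) := K_nz.sup (fun g hg => hMn g (Gam_le y hg))
    apply nz_of_gen
    · intro g hg x hx
      simp only [Set.mem_insert_iff, Set.mem_singleton_iff] at hg
      rcases hg with rfl | rfl | rfl | rfl | rfl
      · exact hG a a_mem x hx
      · exact hG b b_mem x hx
      · exact hG c c_mem x hx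
      · exact hG d d_mem x hx
      · exact mul_mem (mul_mem hyS hx) (inv_mem hyS)
    · intro g hg x hx
      simp only [Set.mem_insert_iff, Set.mem_singleton_iff] at hg
      rcases hg with rfl | rfl | rfl | rfl | rfl
      · simpa using hG a⁻¹ (inv_mem a_mem) x hx
      · simpa using hG b⁻¹ (inv_mem b_mem) x hx
      · simpa using hG c⁻¹ (inv_mem c_mem) x hx
      · simpa using hG d⁻¹ (inv_mem d_mem) x hx
      · exact mul_mem (mul_mem (inv_mem hyS) hx) hyS

include hs in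
theorem fr_Dl (u : List Bool) (hu : u.length = 3) : Fr (Dl y) (at_ u) := by
  apply fr_of_gen
  have hG : ∀ g ∈ Gam, ∃ g' ∈ Subgroup.closure {a, b, c, d, y}, ∀ x,
      g' * at_ u x * g'⁻¹ = at_ u (g * x * g⁻¹) := by
    intro g hg
    obtain ⟨g', hg', e⟩ := fr_at u g hg
    exact ⟨g', Gam_le y hg', e⟩
  intro g hg
  simp only [Set.mem_insert_iff, Set.mem_singleton_iff] at hg
  rcases hg with rfl | rfl | rfl | rfl | rfl
  · exact hG a a_mem
  · exact hG b b_mem
  · exact hG c c_mem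
  · exact hG d d_mem
  · obtain ⟨γ, hγ, e⟩ := trans_at [true, true, true] u (by simp [hu])
    refine ⟨γ * g * γ⁻¹, mul_mem (mul_mem (Gam_le g hγ) (y_mem g)) (inv_mem (Gam_le g hγ)),
      fun x => ?_⟩
    have h1 : g * at_ [true, true, true] x * g⁻¹ = at_ [true, true, true] (g * x * g⁻¹) := by
      have e : ∀ X : G, step g * X * (step g)⁻¹ = g * X * g⁻¹ := by intro X; rw [hs]
      rw [← e]
      simp only [step, at_true, at_nil, conj_pr, one_mul, inv_one, mul_one, mul_inv_cancel]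
    have h2 : at_ u x = γ * at_ [true, true, true] x * γ⁻¹ := (e x).symm
    rw [h2, ← e (g * x * g⁻¹), ← h1]
    group

theorem map_D_le {f : G →* G} {H M : Subgroup G} :
    D H ≤ M.comap f ↔ H ≤ M.comap (f.comp at0) ∧ H ≤ M.comap (f.comp at1) := by
  rw [D_le]
  rfl

include hs in
theorem iter_le_ncl (k : ℕ) : ∀ (f : G →* G), Fr (Dl y) f → ∀ M : Subgroup G, Nz (Dl y) M →
    D3^[k] K ≤ M.comap f → D3^[k] (N y) ≤ M.comap f := by
  induction k with
  | zero =>
    intro f hf M hM h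
    apply ncl_le h
    intro g hg x hx
    obtain ⟨g', hg', e⟩ := hf g hg
    rw [Subgroup.mem_comap, ← e]
    exact hM g' hg' _ hx
  | succ k ih =>
    intro f hf M hM h
    rw [Function.iterate_succ_apply'] at h ⊢
    rw [D3, map_D_le, map_D_le, map_D_le, map_D_le, map_D_le, map_D_le, map_D_le] at h ⊢
    have key : ∀ u : List Bool, u.length = 3 → D3^[k] K ≤ M.comap (f.comp (at_ u)) →
        D3^[k] (N y) ≤ M.comap (f.comp (at_ u)) := fun u hu hk =>
      ih (f.comp (at_ u)) (hf.comp (fr_Dl hs u hu)) M hM hk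
    obtain ⟨⟨⟨h1, h2⟩, ⟨h3, h4⟩⟩, ⟨⟨h5, h6⟩, ⟨h7, h8⟩⟩⟩ := h
    exact ⟨⟨⟨key [false, false, false] rfl h1, key [false, false, true] rfl h2⟩,
      ⟨key [false, true, false] rfl h3, key [false, true, true] rfl h4⟩⟩,
      ⟨⟨key [true, false, false] rfl h5, key [true, false, true] rfl h6⟩,
      ⟨key [true, true, false] rfl h7, key [true, true, true] rfl h8⟩⟩⟩

include hs hr hA in
/-- The main algebraic statement. -/
theorem main_alg (k : ℕ) : Dl y ≤ Gam ⊔ ncl (Dl y) (Kn (3 * k)) := by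
  have h1 : D3^[k] (N y) ≤ ncl (Dl y) (Kn (3 * k)) := by
    have := iter_le_ncl hs k (MonoidHom.id G) (Fr.id _) (ncl (Dl y) (Kn (3 * k))) (ncl_nz _ _)
      (by rw [iter_D3]; exact subset_ncl _ _)
    exact this
  have h2 : y ∈ Gam ⊔ ncl (Dl y) (Kn (3 * k)) :=
    (sup_le_sup K_le h1) (N_le hs hr hA k (y_mem_N hr hA))
  rw [Dl, Subgroup.closure_le]
  intro g hg
  simp only [Set.mem_insert_iff, Set.mem_singleton_iff] at hg
  rcases hg with rfl | rfl | rfl | rfl | rfl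
  · exact Subgroup.mem_sup_left a_mem
  · exact Subgroup.mem_sup_left b_mem
  · exact Subgroup.mem_sup_left c_mem
  · exact Subgroup.mem_sup_left d_mem
  · exact h2

end

end Pool.Agent.KS6_37.Grig
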