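import Pool.Agent.KS6_37.Grig.Limit

/-!
# The overgroup contains a free monoid of rank two
-/

set_option autoImplicit false

namespace Pool.Agent.KS6_37.Grig

/-! ### Further relations -/

theorem zy_Y (k : ℕ) : Z (Y k) * Y k = Y k * Z (Y k) := by
  induction k with
  | zero => simp [Y]
  | succ k ih =>
    have h := rel_Y k
    rw [Y, h.Z_step, step]
    have e1 : pr (a * Z (Y k)) (c * Y k * Z (Y k)) * pr (Z (Y k)) (Z (Y k)) =
        pr (Z (Y k)) (Z (Y k)) * pr (a * Z (Y k)) (c * Y k * Z (Y k)) := by
      rw [pr_mul, pr_mul]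
      congr 1
      · rw [h.az, mul_assoc, ← h.az, ← mul_assoc]
      · rw [h.pz, mul_assoc, ← h.pz, ← mul_assoc]
    have e2 : pr (a * Z (Y k)) (c * Y k * Z (Y k)) * pr 1 (Y k) =
        pr 1 (Y k) * pr (a * Z (Y k)) (c * Y k * Z (Y k)) := by
      rw [pr_mul, pr_mul, mul_one, one_mul]
      congr 1
      rw [mul_assoc, ih, ← mul_assoc, mul_assoc c, h.yy, mul_one, ← mul_assoc, ← mul_assoc, ← h.cy,
        mul_assoc c, h.yy, mul_one]
    generalize pr (a * Z (Y k)) (c * Y k * Z (Y k)) = X at e1 e2 ⊢
    rw [pr_mul, pr_mul, pr_mul, pr_mul, mul_one, one_mul, e1, e2]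

theorem zy : Z ylim * ylim = ylim * Z ylim := by
  apply eq_of_ag
  intro n
  have h1 := Ag.mul tr_ylim (Ag.Z tr_ylim (ag_ylim n)) (ag_ylim n)
  have h2 := Ag.mul (tr_Z tr_ylim) (ag_ylim n) (Ag.Z tr_ylim (ag_ylim n))
  rw [zy_Y n] at h1
  exact h1.trans h2.symm

/-- `p = c y` -/
noncomputable def p : G := c * ylim

/-- `z = (a c y)^4` -/
noncomputable def z : G := Z ylim

/-- `α = (a c y)^2` -/
noncomputable def al : G := (a * p) * (a * p)

/-- `z b z d` -/
noncomputable def w0 : G := z * b * z * d

/-- `β = (z b z d)^2` -/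
noncomputable def be : G := w0 * w0

theorem p_p : p * p = 1 := rel_ylim.pp
theorem z_z : z * z = 1 := rel_ylim.zz
theorem p_z : p * z = z * p := rel_ylim.pz
theorem a_z : a * z = z * a := rel_ylim.az
theorem al_al : al * al = z := by rw [z, Z, four]; rfl
theorem p_inv : p⁻¹ = p := inv_eq_of_mul_eq_one_right p_p
theorem z_inv : z⁻¹ = z := inv_eq_of_mul_eq_one_right z_z
theorem y_inv : ylim⁻¹ = ylim := inv_eq_of_mul_eq_one_right rel_ylim.yy
theorem al_inv : al⁻¹ = (p * a) * (p * a) := by
  rw [al, mul_inv_rev, mul_inv_rev, p_inv, a_inv]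
theorem al_z : al * z = z * al := by rw [← al_al, mul_assoc]
theorem al_inv' : al⁻¹ = z * al := by
  rw [inv_eq_iff_mul_eq_one, ← al_z, ← mul_assoc, al_al, z_z]
theorem al_p : al * p = p * al⁻¹ := by
  rw [al_inv, al, ← mul_assoc p, ← mul_assoc p p, p_p, one_mul, mul_assoc (a * p), mul_assoc a p p,
    p_p, mul_one, mul_assoc a p a]
  

theorem al_eq : al = pr (pr (pr z z) (pr a p) * a) (a * pr (pr z z) (pr a p)) := by
  have e1 : (a * (c * step ylim)) * (a * (c * step ylim)) =
      pr (pr (pr z z) (pr a p) * a) (a * pr (pr z z) (pr a p)) := by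
    rw [c_step]
    change (a * pr a (pr (pr z z) (pr a p))) * (a * pr a (pr (pr z z) (pr a p))) = _
    generalize pr (pr z z) (pr a p) = Y
    rw [a_pr, mul_assoc, ← mul_assoc a, a_pr, mul_assoc, a_a, mul_one, pr_mul]
  rw [step_ylim] at e1
  exact e1

theorem z_eq : z = pr (pr (pr (a * z) (p * z)) (pr (a * z) (p * z)))
    (pr (pr (a * z) (p * z)) (pr (a * z) (p * z))) := by
  have e := rel_ylim.Z_step
  rw [step_ylim] at e
  exact e

theorem w0_eq : w0 = pr a (pr (pr (a * p) (p * a)) (pr a w0)) := by
  have e := rel_ylim.q2_step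
  rw [step_ylim] at e
  have e2 : Z ylim * (c * ylim) * b * (Z ylim * (c * ylim)) * d = w0 := by
    have h1 : p * b = b * p := by
      rw [p, mul_assoc, ← rel_ylim.by', ← mul_assoc, c_b, ← b_c, mul_assoc]
    change z * p * b * (z * p) * d = z * b * z * d
    rw [show z * p * b * (z * p) * d = z * (p * b) * (z * p) * d by simp only [mul_assoc], h1,
      ← p_z, show z * (b * p) * (p * z) * d = z * b * (p * p) * z * d by simp only [mul_assoc],
      p_p, mul_one]
  rw [e2] at e
  exact e

theorem be_eq : be = pr 1 (pr (pr al al⁻¹) (pr 1 be)) := by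
  have e : w0 * w0 = pr 1 (pr (pr ((a * p) * (a * p)) ((p * a) * (p * a))) (pr 1 (w0 * w0))) := by
    conv_lhs => rw [w0_eq]
    rw [pr_mul, pr_mul, pr_mul, pr_mul, a_a]
  rw [al_inv]
  exact e

theorem y_eq : ylim = pr 1 (pr (pr z z) (pr 1 ylim)) := by
  have e := step_ylim
  rw [step] at e
  exact e.symm

theorem c_eq' : c = pr a (pr 1 (pr a c)) := by rw [← b_eq, ← d_eq, ← c_eq]

theorem p_eq : p = pr a (pr (pr z z) (pr a p)) := by
  have e := c_step ylim
  rw [step_ylim] at e
  exact e

/-! ### Sections at `101` and `111` -/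

/-- `x` fixes `101` and `111`, with sections `s`, `t` -/
def FX (x s t : G) : Prop :=
  (∀ w, x (true :: false :: true :: w) = true :: false :: true :: s w) ∧
    (∀ w, x (true :: true :: true :: w) = true :: true :: true :: t w)

/-- `x` exchanges `101` and `111`, with sections `s`, `t` -/
def SW (x s t : G) : Prop :=
  (∀ w, x (true :: false :: true :: w) = true :: true :: true :: s w) ∧
    (∀ w, x (true :: true :: true :: w) = true :: false :: true :: t w)

theorem FX.one : FX 1 1 1 := ⟨fun _ => rfl, fun _ => rfl⟩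

theorem FX.mul {x s t x' s' t' : G} (h : FX x s t) (h' : FX x' s' t') :
    FX (x * x') (s * s') (t * t') :=
  ⟨fun w => by rw [Equiv.Perm.mul_apply, h'.1, h.1]; rfl,
    fun w => by rw [Equiv.Perm.mul_apply, h'.2, h.2]; rfl⟩

theorem FX.sw {x s t x' s' t' : G} (h : FX x s t) (h' : SW x' s' t') :
    SW (x * x') (t * s') (s * t') :=
  ⟨fun w => by rw [Equiv.Perm.mul_apply, h'.1, h.2]; rfl,
    fun w => by rw [Equiv.Perm.mul_apply, h'.2, h.1]; rfl⟩

theorem SW.fx {x s t x' s' t' : G} (h : SW x s t) (h' : FX x' s' t') :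
    SW (x * x') (s * s') (t * t') :=
  ⟨fun w => by rw [Equiv.Perm.mul_apply, h'.1, h.1]; rfl,
    fun w => by rw [Equiv.Perm.mul_apply, h'.2, h.2]; rfl⟩

theorem SW.sw {x s t x' s' t' : G} (h : SW x s t) (h' : SW x' s' t') :
    FX (x * x') (t * s') (s * t') :=
  ⟨fun w => by rw [Equiv.Perm.mul_apply, h'.1, h.2]; rfl,
    fun w => by rw [Equiv.Perm.mul_apply, h'.2, h.1]; rfl⟩

theorem FX.inv {x s t : G} (h : FX x s t) : FX x⁻¹ s⁻¹ t⁻¹ :=
  ⟨fun w => by
      rw [Equiv.Perm.inv_eq_iff_eq, h.1, ap_inv],
    fun w => by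
      rw [Equiv.Perm.inv_eq_iff_eq, h.2, ap_inv]⟩

theorem FX.inj {x s t s' t' : G} (h : FX x s t) (h' : FX x s' t') : s = s' ∧ t = t' := by
  constructor
  · ext1 w
    have := (h.1 w).symm.trans (h'.1 w)
    simpa using this
  · ext1 w
    have := (h.2 w).symm.trans (h'.2 w)
    simpa using this

theorem FX.not_sw {x s t s' t' : G} (h : FX x s t) (h' : SW x s' t') : False := by
  have := (h.1 []).symm.trans (h'.1 [])
  simp at this

theorem fx_c : FX c 1 c := ⟨fun _ => rfl, fun _ => rfl⟩

theorem fx_y : FX ylim z ylim := by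
  constructor
  · intro w
    conv_lhs => rw [y_eq]
    rfl
  · intro w
    conv_lhs => rw [y_eq]
    rfl

theorem fx_p : FX p z p := by
  have := fx_c.mul fx_y
  rwa [one_mul] at this

theorem fx_z : FX z (p * z) (p * z) := by
  constructor
  · intro w
    conv_lhs => rw [z_eq]
    rfl
  · intro w
    conv_lhs => rw [z_eq]
    rfl

theorem sw_al : SW al z p := by
  constructor
  · intro w
    rw [al_eq]
    rfl
  · intro w
    rw [al_eq]
    rfl

theorem fx_be : FX be al⁻¹ be := by
  constructor
  · intro w
    conv_lhs => rw [be_eq]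
    rfl
  · intro w
    conv_lhs => rw [be_eq]
    rfl

theorem fx_be_inv : FX be⁻¹ al be⁻¹ := by
  have := fx_be.inv
  rwa [inv_inv] at this

/-! ### The free monoid -/

/-- `p^j z^k α β⁻¹` -/
noncomputable def X (j k : Bool) : G := cond j p 1 * (cond k z 1 * (al * be⁻¹))

/-- section of `X j k` from `101` to `111` -/
noncomputable def sX (j k : Bool) : G := cond j p 1 * (cond k (p * z) 1 * (z * al))

/-- section of `X j k` from `111` to `101` -/
noncomputable def tX (j k : Bool) : G := cond j z 1 * (cond k (p * z) 1 * (p * be⁻¹))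

theorem sw_X (j k : Bool) : SW (X j k) (sX j k) (tX j k) := by
  have h1 : SW (al * be⁻¹) (z * al) (p * be⁻¹) := sw_al.fx fx_be_inv
  have h2 : FX (cond k z 1) (cond k (p * z) 1) (cond k (p * z) 1) := by
    cases k <;> [exact FX.one; exact fx_z]
  have h3 : FX (cond j p 1) (cond j z 1) (cond j p 1) := by
    cases j <;> [exact FX.one; exact fx_p]
  exact h3.sw (h2.sw h1)

theorem zal_p : z * al * p = p * al := by
  rw [mul_assoc, al_p, al_inv', ← mul_assoc, ← p_z, mul_assoc, ← mul_assoc z, z_z, one_mul]

theorem sX_tX (j k : Bool) : sX j k * tX j k = X (!j) (xor j k) := by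
  have e0 : z * al * z = al := by rw [mul_assoc, al_z, ← mul_assoc, z_z, one_mul]
  cases j <;> cases k
  · simp only [sX, tX, X, cond_false, one_mul, Bool.not_false, cond_true, Bool.false_xor]
    rw [← mul_assoc, zal_p, mul_assoc]
  · simp only [sX, tX, X, cond_false, one_mul, Bool.not_false, cond_true, Bool.xor_true]
    -- p z z α p z p β⁻¹
    rw [show p * z * (z * al) * (p * z * (p * be⁻¹)) = p * (z * z) * al * (p * (z * p)) * be⁻¹ by
      simp only [mul_assoc], z_z, ← p_z, ← mul_assoc p p, p_p, one_mul, mul_one, mul_assoc p al z,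
      al_z]
    simp only [mul_assoc]
  · simp only [sX, tX, X, cond_false, one_mul, Bool.not_true, cond_true, Bool.xor_false]
    rw [show p * (z * al) * (z * (p * be⁻¹)) = p * (z * al * z) * p * be⁻¹ by
      simp only [mul_assoc], e0, mul_assoc p al p, al_p, ← mul_assoc p p, p_p, one_mul, al_inv']
    simp only [mul_assoc]
  · simp only [sX, tX, X, cond_false, one_mul, Bool.not_true, cond_true, Bool.xor_self]
    rw [show p * (p * z * (z * al)) * (z * (p * z * (p * be⁻¹))) =
      (p * p) * (z * z) * al * (z * (p * (z * p))) * be⁻¹ by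
      simp only [mul_assoc], z_z, p_p, ← p_z, ← mul_assoc p p, p_p]
    simp only [one_mul, mul_one, z_z]

/-- the letters of the free monoid -/
noncomputable def L (j k e : Bool) : G := cond e c 1 * X j k

/-- the words -/
noncomputable def W (j k : Bool) (l : List Bool) : G := (l.map (L j k)).prod

theorem W_nil (j k : Bool) : W j k [] = 1 := rfl
theorem W_cons (j k e : Bool) (l : List Bool) : W j k (e :: l) = L j k e * W j k l := by
  simp [W]
theorem W_append (j k : Bool) (l l' : List Bool) : W j k (l ++ l') = W j k l * W j k l' := by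
  simp [W]

theorem sw_L (j k e : Bool) : SW (L j k e) (cond e c 1 * sX j k) (tX j k) := by
  have h : FX (cond e c 1) 1 (cond e c 1) := by
    cases e <;> [exact FX.one; exact fx_c]
  have := h.sw (sw_X j k)
  rwa [one_mul] at this

theorem fx_LL (j k e e' : Bool) : FX (L j k e * L j k e')
    (tX j k * L (!j) (xor j k) e' * (tX j k)⁻¹) (L (!j) (xor j k) e) := by
  have h := (sw_L j k e).sw (sw_L j k e')
  have e1 : tX j k * (cond e' c 1 * sX j k) = tX j k * L (!j) (xor j k) e' * (tX j k)⁻¹ := by
    rw [L, ← sX_tX]; group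
  have e2 : cond e c 1 * sX j k * tX j k = L (!j) (xor j k) e := by
    rw [L, ← sX_tX, mul_assoc]
  rwa [e1, e2] at h

/-- letters at odd places -/
def od : List Bool → List Bool
  | x :: _ :: l => x :: od l
  | _ => []

/-- letters at even places -/
def ev : List Bool → List Bool
  | _ :: x :: l => x :: ev l
  | _ => []

theorem len_od : ∀ l : List Bool, (od l).length = l.length / 2
  | [] => rfl
  | [_] => by simp [od]
  | x :: x' :: l => by
    rw [od, List.length_cons, len_od l, List.length_cons, List.length_cons]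
    omega

theorem len_ev : ∀ l : List Bool, (ev l).length = l.length / 2
  | [] => rfl
  | [_] => by simp [ev]
  | x :: x' :: l => by
    rw [ev, List.length_cons, len_ev l, List.length_cons, List.length_cons]
    omega

theorem eq_of_od_ev : ∀ l l' : List Bool, Even l.length → Even l'.length → od l = od l' →
    ev l = ev l' → l = l'
  | [], [], _, _, _, _ => rfl
  | [], [_], _, h, _, _ => by simp at h
  | [], _ :: _ :: _, _, _, h, _ => by simp [od] at h
  | [_], _, h, _, _, _ => by simp at h
  | _ :: _ :: _, [], _, _, h, _ => by simp [od] at h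
  | _ :: _ :: _, [_], _, h, _, _ => by simp at h
  | x :: x' :: l, u :: u' :: l', h1, h2, h3, h4 => by
    simp only [od, ev, List.cons.injEq] at h3 h4
    have e1 : Even l.length := by
      simp only [List.length_cons] at h1
      rwa [add_assoc, Nat.even_add, show Even (1 + 1) ↔ True by decide, iff_true] at h1
    have e2 : Even l'.length := by
      simp only [List.length_cons] at h2
      rwa [add_assoc, Nat.even_add, show Even (1 + 1) ↔ True by decide, iff_true] at h2
    rw [h3.1, h4.1, eq_of_od_ev l l' e1 e2 h3.2 h4.2]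

theorem fx_W (j k : Bool) : ∀ l : List Bool, Even l.length →
    FX (W j k l) (tX j k * W (!j) (xor j k) (ev l) * (tX j k)⁻¹) (W (!j) (xor j k) (od l))
  | [], _ => by
    have e : tX j k * W (!j) (xor j k) (ev []) * (tX j k)⁻¹ = 1 := by
      rw [ev, W_nil]
      · group
      · simp
    rw [e]
    exact FX.one
  | [_], h => by simp at h
  | x :: x' :: l, h => by
    have e1 : Even l.length := by
      simp only [List.length_cons] at h
      rwa [add_assoc, Nat.even_add, show Even (1 + 1) ↔ True by decide, iff_true] at h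
    have h1 := (fx_LL j k x x').mul (fx_W j k l e1)
    rw [W_cons, W_cons, ← mul_assoc, od, ev, W_cons, W_cons]
    have e2 : tX j k * (L (!j) (xor j k) x' * W (!j) (xor j k) (ev l)) * (tX j k)⁻¹ =
        tX j k * L (!j) (xor j k) x' * (tX j k)⁻¹ *
          (tX j k * W (!j) (xor j k) (ev l) * (tX j k)⁻¹) := by group
    rw [e2]
    exact h1

theorem sw_W (j k : Bool) (l : List Bool) (h : ¬ Even l.length) :
    ∃ s t, SW (W j k l) s t := by
  cases l with
  | nil => simp at h
  | cons x l =>
    have e1 : Even l.length := by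
      rw [List.length_cons, Nat.even_add_one, not_not] at h
      exact h
    rw [W_cons]
    exact ⟨_, _, (sw_L j k x).fx (fx_W j k l e1)⟩

theorem c_ne_one : c ≠ 1 := by
  intro e
  have := congrArg (fun x : G => x [false, false]) e
  simp at this

theorem W_inj (n : ℕ) : ∀ (j k : Bool) (l l' : List Bool), l.length + l'.length ≤ n →
    W j k l = W j k l' → l = l' := by
  induction n using Nat.strong_induction_on with
  | _ n ih =>
  intro j k l l' hn e
  by_cases h1 : Even l.length
  · by_cases h2 : Even l'.length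
    · rcases Nat.eq_zero_or_pos (l.length + l'.length) with h0 | h0
      · have h3 : l = [] := List.eq_nil_of_length_eq_zero (by omega)
        have h4 : l' = [] := List.eq_nil_of_length_eq_zero (by omega)
        rw [h3, h4]
      · have f1 := fx_W j k l h1
        have f2 := fx_W j k l' h2
        rw [e] at f1
        obtain ⟨g1, g2⟩ := f1.inj f2
        have g3 : W (!j) (xor j k) (ev l) = W (!j) (xor j k) (ev l') :=
          mul_left_cancel (mul_right_cancel g1)
        have g4 := ih (l.length / 2 + l'.length / 2) (by omega) _ _ (od l) (od l')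
          (by rw [len_od, len_od]) g2
        have g5 := ih (l.length / 2 + l'.length / 2) (by omega) _ _ (ev l) (ev l')
          (by rw [len_ev, len_ev]) g3
        exact eq_of_od_ev l l' h1 h2 g4 g5
    · obtain ⟨s, t, hs⟩ := sw_W j k l' h2
      rw [← e] at hs
      exact ((fx_W j k l h1).not_sw hs).elim
  · by_cases h2 : Even l'.length
    · obtain ⟨s, t, hs⟩ := sw_W j k l h1
      rw [e] at hs
      exact ((fx_W j k l' h2).not_sw hs).elim
    · have h3 : 1 ≤ l.length := by
        rcases Nat.eq_zero_or_pos l.length with h | h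
        · rw [h] at h1; simp at h1
        · exact h
      have h4 : 1 ≤ l'.length := by
        rcases Nat.eq_zero_or_pos l'.length with h | h
        · rw [h] at h2; simp at h2
        · exact h
      rcases Nat.lt_or_ge 2 (l.length + l'.length) with h5 | h5
      · have e' : W j k (l ++ [false]) = W j k (l' ++ [false]) := by
          rw [W_append, W_append, e]
        have k1 : Even (l ++ [false]).length := by
          rw [List.length_append, List.length_singleton, Nat.even_add_one]; exact h1
        have k2 : Even (l' ++ [false]).length := by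
          rw [List.length_append, List.length_singleton, Nat.even_add_one]; exact h2
        have f1 := fx_W j k _ k1
        have f2 := fx_W j k _ k2
        rw [e'] at f1
        obtain ⟨g1, g2⟩ := f1.inj f2
        have g3 : W (!j) (xor j k) (ev (l ++ [false])) = W (!j) (xor j k) (ev (l' ++ [false])) :=
          mul_left_cancel (mul_right_cancel g1)
        have hlen : ((l ++ [false]).length) / 2 + ((l' ++ [false]).length) / 2 < n := by
          rw [List.length_append, List.length_append, List.length_singleton]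
          rw [Nat.even_iff] at h1 h2
          omega
        have g4 := ih _ hlen _ _ (od (l ++ [false])) (od (l' ++ [false]))
          (by rw [len_od, len_od]) g2
        have g5 := ih _ hlen _ _ (ev (l ++ [false])) (ev (l' ++ [false]))
          (by rw [len_ev, len_ev]) g3
        have := eq_of_od_ev _ _ k1 k2 g4 g5
        exact List.append_cancel_right this
      · have l1 : l.length = 1 := by omega
        have l2 : l'.length = 1 := by omega
        obtain ⟨x, rfl⟩ := List.length_eq_one_iff.1 l1
        obtain ⟨x', rfl⟩ := List.length_eq_one_iff.1 l2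
        rw [W_cons, W_cons, W_nil, mul_one, mul_one, L, L] at e
        have e3 := mul_right_cancel e
        cases x <;> cases x'
        · rfl
        · exact absurd e3.symm c_ne_one
        · exact absurd e3 c_ne_one
        · rfl

theorem W_injective (j k : Bool) : Function.Injective (W j k) :=
  fun l l' e => W_inj _ j k l l' le_rfl e

/-! ### The elements are in the overgroup -/

theorem p_mem : p ∈ Dl ylim := mul_mem (Gam_le _ c_mem) (y_mem _)
theorem z_mem : z ∈ Dl ylim := Z_mem _
theorem al_mem : al ∈ Dl ylim :=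
  mul_mem (mul_mem (Gam_le _ a_mem) p_mem) (mul_mem (Gam_le _ a_mem) p_mem)
theorem w0_mem : w0 ∈ Dl ylim :=
  mul_mem (mul_mem (mul_mem z_mem (Gam_le _ b_mem)) z_mem) (Gam_le _ d_mem)
theorem be_mem : be ∈ Dl ylim := mul_mem w0_mem w0_mem

theorem X_mem (j k : Bool) : X j k ∈ Dl ylim := by
  refine mul_mem ?_ (mul_mem ?_ (mul_mem al_mem (inv_mem be_mem)))
  · cases j <;> [exact one_mem _; exact p_mem]
  · cases k <;> [exact one_mem _; exact z_mem]

theorem L_mem (j k e : Bool) : L j k e ∈ Dl ylim := by
  refine mul_mem ?_ (X_mem j k)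
  cases e <;> [exact one_mem _; exact Gam_le _ c_mem]

end Pool.Agent.KS6_37.Grig
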