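import Pool.Agent.KS6_37.Grig.Step

/-!
# The Grigorchuk group: branching, fractality, transitivity
-/

set_option autoImplicit false

namespace Pool.Agent.KS6_37.Grig

/-- `g` below `0`. -/
def at0 : G →* G where
  toFun g := pr g 1
  map_one' := pr_one
  map_mul' g h := by rw [pr_mul, mul_one]

/-- `g` below `1`. -/
def at1 : G →* G where
  toFun g := pr 1 g
  map_one' := pr_one
  map_mul' g h := by rw [pr_mul, mul_one]

theorem at0_apply (g : G) : at0 g = pr g 1 := rfl
theorem at1_apply (g : G) : at1 g = pr 1 g := rfl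

/-- `g` below the vertex `w`. -/
def at_ : List Bool → (G →* G)
  | [] => MonoidHom.id G
  | false :: w => at0.comp (at_ w)
  | true :: w => at1.comp (at_ w)

theorem at_nil (g : G) : at_ [] g = g := rfl
theorem at_false (w : List Bool) (g : G) : at_ (false :: w) g = pr (at_ w g) 1 := rfl
theorem at_true (w : List Bool) (g : G) : at_ (true :: w) g = pr 1 (at_ w g) := rfl

theorem at_append (u v : List Bool) (g : G) : at_ (u ++ v) g = at_ u (at_ v g) := by
  induction u with
  | nil => rfl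
  | cons x u ih => cases x <;> simp [at_false, at_true, ih]

theorem a_mem : a ∈ Gam := Subgroup.subset_closure (by simp)
theorem b_mem : b ∈ Gam := Subgroup.subset_closure (by simp)
theorem c_mem : c ∈ Gam := Subgroup.subset_closure (by simp)
theorem d_mem : d ∈ Gam := Subgroup.subset_closure (by simp)

/-- Every conjugation inside the subtree is realised by the ambient subgroup. -/
def Fr (H : Subgroup G) (f : G →* G) : Prop :=
  ∀ g ∈ H, ∃ g' ∈ H, ∀ x, g' * f x * g'⁻¹ = f (g * x * g⁻¹)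

theorem Fr.comp {H : Subgroup G} {f f' : G →* G} (hf : Fr H f) (hf' : Fr H f') :
    Fr H (f.comp f') := by
  intro g hg
  obtain ⟨g1, h1, e1⟩ := hf' g hg
  obtain ⟨g2, h2, e2⟩ := hf g1 h1
  refine ⟨g2, h2, fun x => ?_⟩
  rw [MonoidHom.comp_apply, MonoidHom.comp_apply, e2, e1]

theorem Fr.id (H : Subgroup G) : Fr H (MonoidHom.id G) := fun g hg => ⟨g, hg, fun _ => rfl⟩

/-- It is enough to check `Fr` on generators. -/
theorem fr_of_gen {S : Set G} {f : G →* G}
    (h : ∀ g ∈ S, ∃ g' ∈ Subgroup.closure S, ∀ x, g' * f x * g'⁻¹ = f (g * x * g⁻¹)) :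
    Fr (Subgroup.closure S) f := by
  intro g hg
  induction hg using Subgroup.closure_induction with
  | mem x hx => exact h x hx
  | one => exact ⟨1, Subgroup.one_mem _, fun x => by simp⟩
  | mul x y _ _ hx hy =>
    obtain ⟨x', hx', ex⟩ := hx
    obtain ⟨y', hy', ey⟩ := hy
    refine ⟨x' * y', Subgroup.mul_mem _ hx' hy', fun z => ?_⟩
    rw [show x' * y' * f z * (x' * y')⁻¹ = x' * (y' * f z * y'⁻¹) * x'⁻¹ by group, ey, ex,
      show x * y * z * (x * y)⁻¹ = x * (y * z * y⁻¹) * x⁻¹ by group]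
  | inv x _ hx =>
    obtain ⟨x', hx', ex⟩ := hx
    refine ⟨x'⁻¹, Subgroup.inv_mem _ hx', fun z => ?_⟩
    have := ex (x⁻¹ * z * x⁻¹⁻¹)
    rw [show x * (x⁻¹ * z * x⁻¹⁻¹) * x⁻¹ = z by group] at this
    rw [← this]
    group

theorem conj_pr (g h x y : G) : pr g h * pr x y * (pr g h)⁻¹ = pr (g * x * g⁻¹) (h * y * h⁻¹) := by
  rw [pr_inv, pr_mul, pr_mul]

theorem conj_a (x y : G) : a * pr x y * a⁻¹ = pr y x := by
  rw [a_inv, a_pr, mul_assoc, a_a, mul_one]

theorem mem_aba : pr c a ∈ Gam := by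
  rw [← aba]; exact mul_mem a_mem (mul_mem b_mem a_mem)
theorem mem_aca : pr d a ∈ Gam := by
  rw [← aca]; exact mul_mem a_mem (mul_mem c_mem a_mem)
theorem mem_ada : pr b 1 ∈ Gam := by
  rw [← ada]; exact mul_mem a_mem (mul_mem d_mem a_mem)
theorem mem_b' : pr a c ∈ Gam := b_eq ▸ b_mem
theorem mem_c' : pr a d ∈ Gam := c_eq ▸ c_mem
theorem mem_d' : pr 1 b ∈ Gam := d_eq ▸ d_mem

theorem fr_at0 : Fr Gam at0 := by
  apply fr_of_gen
  intro g hg
  simp only [Set.mem_insert_iff, Set.mem_singleton_iff] at hg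
  rcases hg with rfl | rfl | rfl | rfl
  · exact ⟨pr a c, mem_b', fun x => by rw [at0_apply, at0_apply, conj_pr]; simp⟩
  · exact ⟨pr b 1, mem_ada, fun x => by rw [at0_apply, at0_apply, conj_pr]; simp⟩
  · exact ⟨pr c a, mem_aba, fun x => by rw [at0_apply, at0_apply, conj_pr]; simp⟩
  · exact ⟨pr d a, mem_aca, fun x => by rw [at0_apply, at0_apply, conj_pr]; simp⟩

theorem fr_at1 : Fr Gam at1 := by
  apply fr_of_gen
  intro g hg
  simp only [Set.mem_insert_iff, Set.mem_singleton_iff] at hg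
  rcases hg with rfl | rfl | rfl | rfl
  · exact ⟨pr c a, mem_aba, fun x => by rw [at1_apply, at1_apply, conj_pr]; simp⟩
  · exact ⟨pr 1 b, mem_d', fun x => by rw [at1_apply, at1_apply, conj_pr]; simp⟩
  · exact ⟨pr a c, mem_b', fun x => by rw [at1_apply, at1_apply, conj_pr]; simp⟩
  · exact ⟨pr a d, mem_c', fun x => by rw [at1_apply, at1_apply, conj_pr]; simp⟩

theorem fr_at (w : List Bool) : Fr Gam (at_ w) := by
  induction w with
  | nil => exact Fr.id _
  | cons x w ih => cases x <;> [exact fr_at0.comp ih; exact fr_at1.comp ih]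

/-- Transitivity on levels, with trivial sections. -/
theorem trans_at (w w' : List Bool) (h : w.length = w'.length) :
    ∃ g ∈ Gam, ∀ x, g * at_ w x * g⁻¹ = at_ w' x := by
  induction w generalizing w' with
  | nil =>
    obtain rfl : w' = [] := List.length_eq_zero_iff.mp h.symm
    exact ⟨1, one_mem _, fun x => by simp⟩
  | cons i w ih =>
    obtain ⟨j, w', rfl⟩ : ∃ j v, w' = j :: v := by
      cases w' with
      | nil => simp at h
      | cons j v => exact ⟨j, v, rfl⟩
    obtain ⟨g, hg, e⟩ := ih w' (by simpa using h)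
    have key : ∀ j : Bool, ∃ g' ∈ Gam, ∀ x, g' * at_ (j :: w) x * g'⁻¹ = at_ (j :: w') x := by
      intro j
      cases j
      · obtain ⟨g', hg', e'⟩ := fr_at0 g hg
        exact ⟨g', hg', fun x => by
          have := e' (at_ w x)
          rw [e] at this
          exact this⟩
      · obtain ⟨g', hg', e'⟩ := fr_at1 g hg
        exact ⟨g', hg', fun x => by
          have := e' (at_ w x)
          rw [e] at this
          exact this⟩
    have mv : ∃ g' ∈ Gam, ∀ x, g' * at_ (i :: w) x * g'⁻¹ = at_ (j :: w) x := by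
      cases i <;> cases j
      · exact ⟨1, one_mem _, fun x => by simp⟩
      · exact ⟨a, a_mem, fun x => by rw [at_false, at_true, conj_a]⟩
      · exact ⟨a, a_mem, fun x => by rw [at_false, at_true, conj_a]⟩
      · exact ⟨1, one_mem _, fun x => by simp⟩
    obtain ⟨g1, h1, e1⟩ := mv
    obtain ⟨g2, h2, e2⟩ := key j
    refine ⟨g2 * g1, mul_mem h2 h1, fun x => ?_⟩
    rw [show g2 * g1 * at_ (i :: w) x * (g2 * g1)⁻¹ = g2 * (g1 * at_ (i :: w) x * g1⁻¹) * g2⁻¹ by
      group, e1, e2]

/-- normal closure of a set `S` under a subgroup `H` -/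
def ncl (H : Subgroup G) (S : Set G) : Subgroup G :=
  Subgroup.closure {x | ∃ g ∈ H, ∃ s ∈ S, x = g * s * g⁻¹}

/-- `H` normalises `M` -/
def Nz (H M : Subgroup G) : Prop := ∀ g ∈ H, ∀ x ∈ M, g * x * g⁻¹ ∈ M

theorem subset_ncl (H : Subgroup G) (S : Set G) : S ⊆ ncl H S := fun s hs =>
  Subgroup.subset_closure ⟨1, one_mem _, s, hs, by simp⟩

theorem ncl_nz (H : Subgroup G) (S : Set G) : Nz H (ncl H S) := by
  intro g hg x hx
  induction hx using Subgroup.closure_induction with
  | mem x hx =>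
    obtain ⟨h, hh, s, hs, rfl⟩ := hx
    exact Subgroup.subset_closure ⟨g * h, mul_mem hg hh, s, hs, by group⟩
  | one => simp
  | mul x y _ _ hx hy =>
    rw [show g * (x * y) * g⁻¹ = (g * x * g⁻¹) * (g * y * g⁻¹) by group]
    exact mul_mem hx hy
  | inv x _ hx =>
    rw [show g * x⁻¹ * g⁻¹ = (g * x * g⁻¹)⁻¹ by group]
    exact inv_mem hx

theorem ncl_le {H M : Subgroup G} {S : Set G} (hS : S ⊆ M) (hM : Nz H M) : ncl H S ≤ M := by
  rw [ncl, Subgroup.closure_le]
  rintro _ ⟨g, hg, s, hs, rfl⟩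
  exact hM g hg s (hS hs)

theorem Nz.sup {H M M' : Subgroup G} (h : Nz H M) (h' : Nz H M') : Nz H (M ⊔ M') := by
  intro g hg x hx
  have : M ⊔ M' ≤ (M ⊔ M').comap (MulAut.conj g).toMonoidHom := by
    apply sup_le
    · intro x hx
      exact Subgroup.mem_sup_left (h g hg x hx)
    · intro x hx
      exact Subgroup.mem_sup_right (h' g hg x hx)
  exact this hx

/-- Normalising can be checked on generators, if these are closed under inversion. -/
theorem nz_of_gen {S : Set G} {M : Subgroup G} (h : ∀ g ∈ S, ∀ x ∈ M, g * x * g⁻¹ ∈ M)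
    (h' : ∀ g ∈ S, ∀ x ∈ M, g⁻¹ * x * g ∈ M) : Nz (Subgroup.closure S) M := by
  intro g hg
  induction hg using Subgroup.closure_induction'' with
  | mem g hg => exact h g hg
  | inv_mem g hg => intro x hx; simpa using h' g hg x hx
  | one => intro x hx; simpa using hx
  | mul g k _ _ ihg ihk =>
    intro x hx
    rw [show g * k * x * (g * k)⁻¹ = g * (k * x * k⁻¹) * g⁻¹ by group]
    exact ihg _ (ihk _ hx)

/-- `(a b)^2` -/
def t : G := (a * b) * (a * b)

theorem t_eq : t = pr (c * a) (a * c) := by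
  rw [t, show (a * b) * (a * b) = (a * (b * a)) * b by simp only [mul_assoc], aba, pr_b]

/-- `K`, the normal closure of `(a b)^2` in the Grigorchuk group -/
def K : Subgroup G := ncl Gam {t}

theorem t_memG : t ∈ Gam := mul_mem (mul_mem a_mem b_mem) (mul_mem a_mem b_mem)

theorem Nz.self (H : Subgroup G) : Nz H H := fun _ hg _ hx =>
  mul_mem (mul_mem hg hx) (inv_mem hg)

theorem K_le : K ≤ Gam := ncl_le (by simpa using t_memG) (Nz.self _)

theorem K_nz : Nz Gam K := ncl_nz _ _

theorem t_mem : t ∈ K := subset_ncl _ _ rfl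

theorem at1_t : at1 t ∈ K := by
  have e : at1 t = (d * t * d⁻¹ * t⁻¹)⁻¹ := by
    have h2 : d * t * d⁻¹ = pr (c * a) (b * (a * c) * b) := by
      rw [t_eq, d_inv, d_pr, pr_d]
    rw [h2, t_eq, pr_inv, pr_mul, pr_inv, at1_apply]
    congr 1
    · group
    · rw [← t_eq]
      simp only [mul_inv_rev, a_inv, b_inv, c_inv]
      rw [t]
      rw [show a * c * (b * (c * a * b)) = a * (c * b * c) * (a * b) by simp only [mul_assoc],
        c_b, d_c]
  rw [e]
  exact inv_mem (mul_mem (K_nz d d_mem t t_mem) (inv_mem t_mem))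

theorem at1_mem {x : G} (hx : x ∈ K) : at1 x ∈ K := by
  have : K ≤ K.comap at1 := by
    apply ncl_le
    · rintro _ rfl
      exact at1_t
    · intro g hg x hx
      obtain ⟨g', hg', e⟩ := fr_at1 g hg
      rw [Subgroup.mem_comap, ← e]
      exact K_nz g' hg' _ hx
  exact this hx

theorem at0_mem {x : G} (hx : x ∈ K) : at0 x ∈ K := by
  have := K_nz a a_mem _ (at1_mem hx)
  rwa [at1_apply, conj_a] at this

theorem pr_mem {x y : G} (hx : x ∈ K) (hy : y ∈ K) : pr x y ∈ K := by
  have := mul_mem (at0_mem hx) (at1_mem hy)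
  rwa [at0_apply, at1_apply, pr_mul, mul_one, one_mul] at this

end Pool.Agent.KS6_37.Grig
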