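import Pool.Agent.KS6_37.Grig.Gamma

/-!
# Level subgroups; every nontrivial normal subgroup contains one
-/

set_option autoImplicit false

namespace Pool.Agent.KS6_37.Grig

/-- `(g, h) ↦ pr g h` -/
def prHom : G × G →* G where
  toFun p := pr p.1 p.2
  map_one' := pr_one
  map_mul' p q := (pr_mul _ _ _ _).symm

/-- `H × H` acting on the two subtrees -/
def D (H : Subgroup G) : Subgroup G := (H.prod H).map prHom

theorem mem_D {H : Subgroup G} {x : G} : x ∈ D H ↔ ∃ g ∈ H, ∃ h ∈ H, pr g h = x := by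
  constructor
  · rintro ⟨⟨g, h⟩, ⟨hg, hh⟩, rfl⟩
    exact ⟨g, hg, h, hh, rfl⟩
  · rintro ⟨g, hg, h, hh, rfl⟩
    exact ⟨⟨g, h⟩, ⟨hg, hh⟩, rfl⟩

theorem pr_mem_D {H : Subgroup G} {g h : G} (hg : g ∈ H) (hh : h ∈ H) : pr g h ∈ D H :=
  mem_D.2 ⟨g, hg, h, hh, rfl⟩

theorem D_mono {H H' : Subgroup G} (h : H ≤ H') : D H ≤ D H' := by
  intro x hx
  obtain ⟨g, hg, k, hk, rfl⟩ := mem_D.1 hx
  exact pr_mem_D (h hg) (h hk)

theorem D_K : D K ≤ K := by
  intro x hx
  obtain ⟨g, hg, k, hk, rfl⟩ := mem_D.1 hx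
  exact pr_mem hg hk

theorem D_le {H M : Subgroup G} : D H ≤ M ↔ H ≤ M.comap at0 ∧ H ≤ M.comap at1 := by
  constructor
  · intro h
    exact ⟨fun x hx => h (pr_mem_D hx (one_mem _)), fun x hx => h (pr_mem_D (one_mem _) hx)⟩
  · rintro ⟨h0, h1⟩ x hx
    obtain ⟨g, hg, k, hk, rfl⟩ := mem_D.1 hx
    have := mul_mem (show pr g 1 ∈ M from h0 hg) (show pr 1 k ∈ M from h1 hk)
    rwa [pr_mul, mul_one, one_mul] at this

theorem D_sup (H H' : Subgroup G) : D (H ⊔ H') ≤ D H ⊔ D H' := by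
  rw [D_le]
  constructor
  · apply sup_le
    · exact fun x hx => Subgroup.mem_sup_left (pr_mem_D hx (one_mem _))
    · exact fun x hx => Subgroup.mem_sup_right (pr_mem_D hx (one_mem _))
  · apply sup_le
    · exact fun x hx => Subgroup.mem_sup_left (pr_mem_D (one_mem _) hx)
    · exact fun x hx => Subgroup.mem_sup_right (pr_mem_D (one_mem _) hx)

theorem nz_D {H : Subgroup G} (hH : Nz Gam H) : Nz Gam (D H) := by
  have key : ∀ g ∈ ({a, b, c, d} : Set G), ∀ x ∈ D H, g * x * g⁻¹ ∈ D H := by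
    intro g hg x hx
    obtain ⟨u, hu, v, hv, rfl⟩ := mem_D.1 hx
    simp only [Set.mem_insert_iff, Set.mem_singleton_iff] at hg
    rcases hg with rfl | rfl | rfl | rfl
    · rw [conj_a]; exact pr_mem_D hv hu
    · have : b * pr u v * b⁻¹ = pr (a * u * a⁻¹) (c * v * c⁻¹) := by
        rw [← conj_pr, ← b_eq]
      rw [this]
      exact pr_mem_D (hH a a_mem _ hu) (hH c c_mem _ hv)
    · have : c * pr u v * c⁻¹ = pr (a * u * a⁻¹) (d * v * d⁻¹) := by
        rw [← conj_pr, ← c_eq]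
      rw [this]
      exact pr_mem_D (hH a a_mem _ hu) (hH d d_mem _ hv)
    · have : d * pr u v * d⁻¹ = pr (1 * u * 1⁻¹) (b * v * b⁻¹) := by
        rw [← conj_pr, ← d_eq]
      rw [this]
      exact pr_mem_D (hH 1 (one_mem _) _ hu) (hH b b_mem _ hv)
  apply nz_of_gen key
  intro g hg x hx
  have hgi : g⁻¹ = g := by
    simp only [Set.mem_insert_iff, Set.mem_singleton_iff] at hg
    rcases hg with rfl | rfl | rfl | rfl
    exacts [a_inv, b_inv, c_inv, d_inv]
  have := key g hg x hx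
  rwa [hgi] at this ⊢

/-- the `n`-th level subgroup -/
def Kn (n : ℕ) : Subgroup G := D^[n] K

theorem Kn_zero : Kn 0 = K := rfl
theorem Kn_succ (n : ℕ) : Kn (n + 1) = D (Kn n) := Function.iterate_succ_apply' _ _ _

theorem Kn_nz (n : ℕ) : Nz Gam (Kn n) := by
  induction n with
  | zero => exact K_nz
  | succ n ih => rw [Kn_succ]; exact nz_D ih

theorem Kn_succ_le (n : ℕ) : Kn (n + 1) ≤ Kn n := by
  induction n with
  | zero => rw [Kn_succ]; exact D_K
  | succ n ih => rw [Kn_succ, Kn_succ n]; exact D_mono (by rw [Kn_succ] at ih; exact ih)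

theorem Kn_anti {m n : ℕ} (h : m ≤ n) : Kn n ≤ Kn m :=
  antitone_nat_of_succ_le Kn_succ_le h

theorem Kn_le_K (n : ℕ) : Kn n ≤ K := Kn_anti (Nat.zero_le n)

theorem Kn_le (n : ℕ) : Kn n ≤ Gam := (Kn_le_K n).trans K_le

theorem iter_D_le {H : Subgroup G} (n : ℕ) : ∀ M : Subgroup G,
    (∀ w : List Bool, w.length = n → ∀ x ∈ H, at_ w x ∈ M) → D^[n] H ≤ M := by
  induction n with
  | zero => intro M h x hx; exact h [] rfl x hx
  | succ n ih =>
    intro M h
    rw [Function.iterate_succ_apply', D_le]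
    constructor
    · apply ih
      intro w hw x hx
      exact h (false :: w) (by simp [hw]) x hx
    · apply ih
      intro w hw x hx
      exact h (true :: w) (by simp [hw]) x hx

/-- length and prefix preserving -/
def Tr (g : G) : Prop := ∀ v, (g v).length = v.length ∧ ∀ w, ∃ u, g (v ++ w) = g v ++ u

theorem tr_one : Tr 1 := fun v => ⟨rfl, fun w => ⟨w, rfl⟩⟩

theorem tr_mul {g h : G} (hg : Tr g) (hh : Tr h) : Tr (g * h) := by
  intro v
  refine ⟨?_, fun w => ?_⟩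
  · rw [Equiv.Perm.mul_apply, (hg _).1, (hh _).1]
  · obtain ⟨u, hu⟩ := (hh v).2 w
    obtain ⟨u', hu'⟩ := (hg (h v)).2 u
    exact ⟨u', by rw [Equiv.Perm.mul_apply, hu, hu', Equiv.Perm.mul_apply]⟩

theorem tr_inv {g : G} (hg : Tr g) : Tr g⁻¹ := by
  have hl : ∀ v, (g⁻¹ v).length = v.length := by
    intro v
    have := (hg (g⁻¹ v)).1
    rwa [ap_inv, eq_comm] at this
  intro v
  refine ⟨hl v, fun w => ?_⟩
  -- `g⁻¹ (v ++ w) = x ++ y` with `|x| = |v|`, then `g x = v`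
  set z := g⁻¹ (v ++ w) with hz
  have hzl : z.length = v.length + w.length := by rw [hz, hl]; simp
  have hx : z = z.take v.length ++ z.drop v.length := (List.take_append_drop _ _).symm
  obtain ⟨u, hu⟩ := (hg (z.take v.length)).2 (z.drop v.length)
  rw [← hx, show g z = v ++ w from by rw [hz, ap_inv]] at hu
  have hlen : v.length = (g (z.take v.length)).length := by
    rw [(hg _).1, List.length_take, hzl]
    omega
  have h1 : v = g (z.take v.length) := (List.append_inj hu hlen).1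
  have h2 : g⁻¹ v = z.take v.length := by
    conv_lhs => rw [h1]
    rw [inv_ap]
  refine ⟨z.drop v.length, ?_⟩
  rw [h2]
  exact hx

theorem tr_pr {g h : G} (hg : Tr g) (hh : Tr h) : Tr (pr g h) := by
  intro v
  cases v with
  | nil => exact ⟨rfl, fun w => ⟨pr g h w, rfl⟩⟩
  | cons x v =>
    cases x
    · refine ⟨by simp [(hg v).1], fun w => ?_⟩
      obtain ⟨u, hu⟩ := (hg v).2 w
      exact ⟨u, by simp [hu]⟩
    · refine ⟨by simp [(hh v).1], fun w => ?_⟩
      obtain ⟨u, hu⟩ := (hh v).2 w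
      exact ⟨u, by simp [hu]⟩

theorem tr_a : Tr a := by
  intro v
  cases v with
  | nil => exact ⟨rfl, fun w => ⟨a w, rfl⟩⟩
  | cons x v =>
    cases x
    · exact ⟨rfl, fun w => ⟨w, rfl⟩⟩
    · exact ⟨rfl, fun w => ⟨w, rfl⟩⟩

theorem tr_bcd : Tr b ∧ Tr c ∧ Tr d := by
  have key : ∀ v : List Bool,
      ((b v).length = v.length ∧ ∀ w, ∃ u, b (v ++ w) = b v ++ u) ∧
      ((c v).length = v.length ∧ ∀ w, ∃ u, c (v ++ w) = c v ++ u) ∧
      ((d v).length = v.length ∧ ∀ w, ∃ u, d (v ++ w) = d v ++ u) := by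
    intro v
    induction v with
    | nil =>
      exact ⟨⟨rfl, fun w => ⟨b w, rfl⟩⟩, ⟨rfl, fun w => ⟨c w, rfl⟩⟩, ⟨rfl, fun w => ⟨d w, rfl⟩⟩⟩
    | cons x v ih =>
      obtain ⟨⟨hb, hb'⟩, ⟨hc, hc'⟩, ⟨hd, hd'⟩⟩ := ih
      have ha := tr_a v
      cases x
      · refine ⟨⟨by simp [ha.1], fun w => ?_⟩, ⟨by simp [ha.1], fun w => ?_⟩,
          ⟨by simp, fun w => ⟨w, by simp⟩⟩⟩
        · obtain ⟨u, hu⟩ := ha.2 w
          exact ⟨u, by simp [hu]⟩
        · obtain ⟨u, hu⟩ := ha.2 w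
          exact ⟨u, by simp [hu]⟩
      · refine ⟨⟨by simp [hc], fun w => ?_⟩, ⟨by simp [hd], fun w => ?_⟩,
          ⟨by simp [hb], fun w => ?_⟩⟩
        · obtain ⟨u, hu⟩ := hc' w
          exact ⟨u, by simp [hu]⟩
        · obtain ⟨u, hu⟩ := hd' w
          exact ⟨u, by simp [hu]⟩
        · obtain ⟨u, hu⟩ := hb' w
          exact ⟨u, by simp [hu]⟩
  exact ⟨fun v => (key v).1, fun v => (key v).2.1, fun v => (key v).2.2⟩

theorem tr_of_mem {S : Set G} (hS : ∀ g ∈ S, Tr g) {g : G} (hg : g ∈ Subgroup.closure S) : Tr g := by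
  induction hg using Subgroup.closure_induction with
  | mem x hx => exact hS x hx
  | one => exact tr_one
  | mul x y _ _ hx hy => exact tr_mul hx hy
  | inv x _ hx => exact tr_inv hx

theorem tr_Gam {g : G} (hg : g ∈ Gam) : Tr g := by
  refine tr_of_mem ?_ hg
  intro g hg
  simp only [Set.mem_insert_iff, Set.mem_singleton_iff] at hg
  rcases hg with rfl | rfl | rfl | rfl
  exacts [tr_a, tr_bcd.1, tr_bcd.2.1, tr_bcd.2.2]

end Pool.Agent.KS6_37.Grig
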