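import Pool.Agent.KS6_37.Grig.Delta

/-!
# The limit element as an automorphism of the tree
-/

set_option autoImplicit false

namespace Pool.Agent.KS6_37.Grig

/-- agreement on words of length at most `n` -/
def Ag (n : ℕ) (g h : G) : Prop := ∀ v : List Bool, v.length ≤ n → g v = h v

theorem Ag.refl (n : ℕ) (g : G) : Ag n g g := fun _ _ => rfl

theorem Ag.symm {n : ℕ} {g h : G} (e : Ag n g h) : Ag n h g := fun v hv => (e v hv).symm

theorem Ag.trans {n : ℕ} {g h k : G} (e : Ag n g h) (e' : Ag n h k) : Ag n g k :=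
  fun v hv => (e v hv).trans (e' v hv)

theorem Ag.mono {m n : ℕ} (hmn : m ≤ n) {g h : G} (e : Ag n g h) : Ag m g h :=
  fun v hv => e v (hv.trans hmn)

theorem Ag.mul {n : ℕ} {g g' h h' : G} (hh : Tr h) (e1 : Ag n g g') (e2 : Ag n h h') :
    Ag n (g * h) (g' * h') := by
  intro v hv
  rw [Equiv.Perm.mul_apply, Equiv.Perm.mul_apply, e1 (h v) (by rw [(hh v).1]; exact hv), e2 v hv]

theorem Ag.pow_four {n : ℕ} {g g' : G} (hg : Tr g) (e : Ag n g g') : Ag n (g ^ 4) (g' ^ 4) := by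
  rw [four, four]
  exact Ag.mul (tr_mul hg hg) (Ag.mul hg e e) (Ag.mul hg e e)

theorem Ag.pr {n : ℕ} {g g' h h' : G} (e1 : Ag n g g') (e2 : Ag n h h') :
    Ag (n + 1) (pr g h) (pr g' h') := by
  intro v hv
  cases v with
  | nil => rfl
  | cons x v =>
    have hv' : v.length ≤ n := by simpa using hv
    cases x
    · rw [pr_false, pr_false, e1 v hv']
    · rw [pr_true, pr_true, e2 v hv']

theorem eq_of_ag {g h : G} (e : ∀ n, Ag n g h) : g = h := by
  ext1 v
  exact e v.length v le_rfl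

theorem tr_four {g : G} (hg : Tr g) : Tr (g ^ 4) := by
  rw [four]
  exact tr_mul (tr_mul hg hg) (tr_mul hg hg)

theorem tr_Z {y : G} (hy : Tr y) : Tr (Z y) := tr_four (tr_mul tr_a (tr_mul tr_bcd.2.1 hy))

theorem Ag.Z {n : ℕ} {y y' : G} (hy : Tr y) (e : Ag n y y') : Ag n (Z y) (Z y') :=
  Ag.pow_four (tr_mul tr_a (tr_mul tr_bcd.2.1 hy))
    (Ag.mul (tr_mul tr_bcd.2.1 hy) (Ag.refl _ _) (Ag.mul hy (Ag.refl _ _) e))

theorem tr_step {y : G} (hy : Tr y) : Tr (step y) :=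
  tr_pr tr_one (tr_pr (tr_pr (tr_Z hy) (tr_Z hy)) (tr_pr tr_one hy))

theorem ag_pr3 {n : ℕ} {z z' y y' : G} (e1 : Ag n z z') (e2 : Ag n y y') :
    Ag (n + 3) (pr 1 (Grig.pr (Grig.pr z z) (Grig.pr 1 y)))
      (Grig.pr 1 (Grig.pr (Grig.pr z' z') (Grig.pr 1 y'))) :=
  Ag.pr (Ag.refl _ _) (Ag.pr (Ag.pr e1 e1) (Ag.pr (Ag.refl _ _) e2))

theorem Ag.step {n : ℕ} {y y' : G} (hy : Tr y) (e : Ag n y y') : Ag (n + 3) (step y) (step y') :=
  ag_pr3 (Ag.Z hy e) e

theorem tr_Y (k : ℕ) : Tr (Y k) := by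
  induction k with
  | zero => exact tr_one
  | succ k ih => exact tr_step ih

theorem ag_Y (k : ℕ) : Ag (3 * k) (Y k) (Y (k + 1)) := by
  induction k with
  | zero =>
    intro v hv
    have : v = [] := List.eq_nil_of_length_eq_zero (by omega)
    subst this
    rfl
  | succ k ih => exact Ag.step (tr_Y k) ih

theorem ag_Y' {m k : ℕ} (h : m ≤ k) : Ag m (Y m) (Y k) := by
  induction k, h using Nat.le_induction with
  | base => exact Ag.refl _ _
  | succ k hk ih => exact ih.trans ((ag_Y k).mono (by omega))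

/-- The limit of the approximations. -/
def ylim : G := Function.Involutive.toPerm (fun v => Y v.length v) (by
  intro v
  have h : (Y v.length v).length = v.length := (tr_Y v.length v).1
  simp only [h]
  rw [← Equiv.Perm.mul_apply, (rel_Y _).yy]
  rfl)

theorem ylim_apply (v : List Bool) : ylim v = Y v.length v := rfl

theorem ag_ylim (k : ℕ) : Ag k ylim (Y k) := fun v hv => ag_Y' hv v le_rfl

theorem tr_ylim : Tr ylim := by
  intro v
  refine ⟨(tr_Y _ v).1, fun w => ?_⟩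
  obtain ⟨u, hu⟩ := (tr_Y (v ++ w).length v).2 w
  refine ⟨u, ?_⟩
  rw [ylim_apply (v ++ w), hu]
  congr 1
  exact (ag_ylim (v ++ w).length v (by simp)).symm

theorem step_ylim : step ylim = ylim := by
  apply eq_of_ag
  intro n
  have h1 : Ag (n + 3) (step ylim) (Y (n + 1)) := Ag.step tr_ylim (ag_ylim n)
  exact (h1.mono (by omega)).trans ((ag_ylim (n + 1)).symm.mono (by omega))

theorem rel_ylim : Rel ylim where
  yy := by
    ext1 v
    exact (Function.Involutive.toPerm_involutive _) v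
  by' := by
    apply eq_of_ag
    intro n
    have h1 := Ag.mul tr_ylim (Ag.refl n b) (ag_ylim n)
    have h2 := Ag.mul tr_bcd.1 (ag_ylim n) (Ag.refl n b)
    rw [(rel_Y n).by'] at h1
    exact h1.trans h2.symm
  cy := by
    apply eq_of_ag
    intro n
    have h1 := Ag.mul tr_ylim (Ag.refl n c) (ag_ylim n)
    have h2 := Ag.mul tr_bcd.2.1 (ag_ylim n) (Ag.refl n c)
    rw [(rel_Y n).cy] at h1
    exact h1.trans h2.symm
  zz := by
    apply eq_of_ag
    intro n
    have h1 := Ag.mul (tr_Z tr_ylim) (Ag.Z tr_ylim (ag_ylim n)) (Ag.Z tr_ylim (ag_ylim n))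
    rwa [(rel_Y n).zz] at h1

theorem ag_AB (k : ℕ) : Ag (3 * k) (A (Y k)) (Y k) ∧ Ag (3 * k) (B (Y k)) (Y k) := by
  induction k with
  | zero =>
    have h1 : Tr (Z (Y 0)) := tr_Z (tr_Y 0)
    have h2 : Tr (Z (Y 0) * (c * Y 0)) := tr_mul h1 (tr_mul tr_bcd.2.1 (tr_Y 0))
    have h3 : Tr (A (Y 0)) := tr_four (tr_mul (tr_mul (tr_mul h2 tr_bcd.1) h2) tr_bcd.2.2)
    have h4 : Tr (B (Y 0)) := tr_four (tr_mul (tr_mul (tr_mul h1 tr_bcd.1) h1) tr_bcd.2.2)
    constructor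
    · intro v hv
      have : v = [] := List.eq_nil_of_length_eq_zero (by omega)
      subst this
      exact List.eq_nil_of_length_eq_zero (h3 []).1
    · intro v hv
      have : v = [] := List.eq_nil_of_length_eq_zero (by omega)
      subst this
      exact List.eq_nil_of_length_eq_zero (h4 []).1
  | succ k ih =>
    constructor
    · rw [Y, (rel_Y k).A_step]
      exact ag_pr3 (Ag.refl _ _) ih.2
    · rw [Y, (rel_Y k).B_step]
      exact ag_pr3 (Ag.refl _ _) ih.1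

theorem Ag.A {n : ℕ} {y y' : G} (hy : Tr y) (e : Ag n y y') : Ag n (A y) (A y') := by
  have h2 : Tr (Grig.Z y * (c * y)) := tr_mul (tr_Z hy) (tr_mul tr_bcd.2.1 hy)
  have e2 : Ag n (Grig.Z y * (c * y)) (Grig.Z y' * (c * y')) :=
    Ag.mul (tr_mul tr_bcd.2.1 hy) (Ag.Z hy e) (Ag.mul hy (Ag.refl _ _) e)
  exact Ag.pow_four (tr_mul (tr_mul (tr_mul h2 tr_bcd.1) h2) tr_bcd.2.2)
    (Ag.mul tr_bcd.2.2 (Ag.mul h2 (Ag.mul tr_bcd.1 e2 (Ag.refl _ _)) e2) (Ag.refl _ _))

theorem A_ylim : A ylim = ylim := by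
  apply eq_of_ag
  intro n
  have h1 := Ag.A tr_ylim (ag_ylim n)
  exact h1.trans (((ag_AB n).1.mono (by omega)).trans (ag_ylim n).symm)

/-- All approximations lie in `K`. -/
theorem Y_mem_K (k : ℕ) : Y k ∈ K := by
  induction k with
  | zero => exact one_mem _
  | succ k ih =>
    have hz : Z (Y k) ∈ K := by
      have : Z (Y k) = (a * c * Y k) ^ 4 := by rw [Z, mul_assoc]
      rw [this]
      exact pow_four_mem K_nz (mul_mem a_mem c_mem) ih ac_four_mem
    exact pr_mem (one_mem _) (pr_mem (pr_mem hz hz) (pr_mem (one_mem _) ih))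

theorem Y_mem (k : ℕ) : Y k ∈ Gam := K_le (Y_mem_K k)

/-! ### The limit is not in the Grigorchuk group -/

/-- elements whose sections at level `n` lie in the nucleus -/
def Nu : ℕ → Set G
  | 0 => {1, a, b, c, d}
  | n + 1 => {g | ∃ g0 ∈ Nu n, ∃ g1 ∈ Nu n, g = pr g0 g1 ∨ g = pr g0 g1 * a}

theorem one_mem_nu : (1 : G) ∈ Nu 0 := by simp [Nu]
theorem a_mem_nu : a ∈ Nu 0 := by simp [Nu]
theorem b_mem_nu : b ∈ Nu 0 := by simp [Nu]
theorem c_mem_nu : c ∈ Nu 0 := by simp [Nu]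
theorem d_mem_nu : d ∈ Nu 0 := by simp [Nu]

theorem nu_dec {x : G} (hx : x ∈ Nu 0) : x = a ∨ ∃ g0 ∈ Nu 0, ∃ g1 ∈ Nu 0, x = pr g0 g1 := by
  rcases hx with rfl | rfl | rfl | rfl | rfl
  · exact Or.inr ⟨1, one_mem_nu, 1, one_mem_nu, pr_one.symm⟩
  · exact Or.inl rfl
  · exact Or.inr ⟨a, a_mem_nu, c, c_mem_nu, b_eq⟩
  · exact Or.inr ⟨a, a_mem_nu, d, d_mem_nu, c_eq⟩
  · exact Or.inr ⟨1, one_mem_nu, b, b_mem_nu, d_eq⟩

theorem nu_zero_le {x : G} (hx : x ∈ Nu 0) : x ∈ Nu 1 := by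
  rcases nu_dec hx with rfl | ⟨g0, h0, g1, h1, rfl⟩
  · exact ⟨1, one_mem_nu, 1, one_mem_nu, Or.inr (by rw [pr_one, one_mul])⟩
  · exact ⟨g0, h0, g1, h1, Or.inl rfl⟩

theorem nu_succ_le (n : ℕ) : Nu n ⊆ Nu (n + 1) := by
  induction n with
  | zero => exact fun x hx => nu_zero_le hx
  | succ n ih =>
    rintro x ⟨g0, h0, g1, h1, e⟩
    exact ⟨g0, ih h0, g1, ih h1, e⟩

theorem nu_mono {m n : ℕ} (h : m ≤ n) : Nu m ⊆ Nu n :=
  monotone_nat_of_le_succ nu_succ_le h

theorem nu_mul_zero {x s : G} (hx : x ∈ Nu 0) (hs : s ∈ Nu 0) : x * s ∈ Nu 1 := by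
  rcases nu_dec hx with rfl | ⟨g0, h0, g1, h1, rfl⟩
  · rcases nu_dec hs with rfl | ⟨k0, l0, k1, l1, rfl⟩
    · rw [a_a]; exact nu_zero_le one_mem_nu
    · exact ⟨k1, l1, k0, l0, Or.inr (a_pr _ _)⟩
  · rcases nu_dec hs with rfl | ⟨k0, l0, k1, l1, rfl⟩
    · exact ⟨g0, h0, g1, h1, Or.inr rfl⟩
    · -- both in `{1, b, c, d}`
      have key : ∀ x ∈ Nu 0, x = a ∨ x ∈ ({1, b, c, d} : Set G) := by
        rintro x (rfl | rfl | rfl | rfl | rfl) <;> simp
      have na : ∀ u v : G, pr u v ≠ a := by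
        intro u v e
        have := congrArg (fun x : G => x [false]) e
        simp at this
      have hx' := (key _ hx).resolve_left (na _ _)
      have hs' := (key _ hs).resolve_left (na _ _)
      apply nu_zero_le
      generalize pr g0 g1 = x at hx'
      generalize pr k0 k1 = s at hs'
      simp only [Set.mem_insert_iff, Set.mem_singleton_iff] at hx' hs'
      rcases hx' with rfl | rfl | rfl | rfl <;> rcases hs' with rfl | rfl | rfl | rfl
      · rw [one_mul]; exact one_mem_nu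
      · rw [one_mul]; exact b_mem_nu
      · rw [one_mul]; exact c_mem_nu
      · rw [one_mul]; exact d_mem_nu
      · rw [mul_one]; exact b_mem_nu
      · rw [b_b]; exact one_mem_nu
      · rw [b_c]; exact d_mem_nu
      · rw [b_d]; exact c_mem_nu
      · rw [mul_one]; exact c_mem_nu
      · rw [c_b]; exact d_mem_nu
      · rw [c_c]; exact one_mem_nu
      · rw [c_d]; exact b_mem_nu
      · rw [mul_one]; exact d_mem_nu
      · rw [d_b]; exact c_mem_nu
      · rw [d_c]; exact b_mem_nu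
      · rw [d_d]; exact one_mem_nu

theorem nu_mul (n : ℕ) : ∀ {x s : G}, x ∈ Nu n → s ∈ Nu 0 → x * s ∈ Nu (n + 1) := by
  induction n with
  | zero => exact fun hx hs => nu_mul_zero hx hs
  | succ n ih =>
    rintro x s ⟨g0, h0, g1, h1, e⟩ hs
    rcases nu_dec hs with rfl | ⟨k0, l0, k1, l1, rfl⟩
    · rcases e with rfl | rfl
      · exact ⟨g0, nu_succ_le _ h0, g1, nu_succ_le _ h1, Or.inr rfl⟩
      · exact ⟨g0, nu_succ_le _ h0, g1, nu_succ_le _ h1, Or.inl (by
          rw [mul_assoc, a_a, mul_one])⟩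
    · rcases e with rfl | rfl
      · exact ⟨_, ih h0 l0, _, ih h1 l1, Or.inl (pr_mul _ _ _ _)⟩
      · exact ⟨_, ih h0 l1, _, ih h1 l0, Or.inr (by
          rw [mul_assoc, a_pr, ← mul_assoc, pr_mul])⟩

theorem mem_nu {g : G} (hg : g ∈ Gam) : ∃ n, g ∈ Nu n := by
  have hsub : ∀ x ∈ ({a, b, c, d} : Set G), x ∈ Nu 0 := by
    intro x hx
    simp only [Set.mem_insert_iff, Set.mem_singleton_iff] at hx
    rcases hx with rfl | rfl | rfl | rfl
    exacts [a_mem_nu, b_mem_nu, c_mem_nu, d_mem_nu]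
  induction hg using Subgroup.closure_induction_right with
  | one => exact ⟨0, one_mem_nu⟩
  | mul_right x _ y hy ih =>
    obtain ⟨n, hn⟩ := ih
    exact ⟨n + 1, nu_mul n hn (hsub y hy)⟩
  | mul_inv_cancel x _ y hy ih =>
    obtain ⟨n, hn⟩ := ih
    rw [gen_inv hy]
    exact ⟨n + 1, nu_mul n hn (hsub y hy)⟩

theorem pr_eq_one {u v : G} : pr u v = 1 ↔ u = 1 ∧ v = 1 := by
  rw [← pr_one, pr_inj, pr_one]

theorem pr_ne_a (u v : G) : pr u v ≠ a := by
  intro e
  have := congrArg (fun x : G => x [false]) e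
  simp at this

theorem nu_sec {n : ℕ} {u v : G} (h : pr u v ∈ Nu (n + 1)) : u ∈ Nu n ∧ v ∈ Nu n := by
  obtain ⟨g0, h0, g1, h1, e | e⟩ := h
  · rw [pr_inj] at e
    rw [e.1, e.2]
    exact ⟨h0, h1⟩
  · exfalso
    have := congrArg (fun x : G => x [false]) e
    simp [Equiv.Perm.mul_apply] at this

theorem ylim_notMem : ylim ∉ Gam := by
  intro h
  obtain ⟨n, hn⟩ := mem_nu h
  have key : ∀ m, ylim ∈ Nu (3 * m) → ylim ∈ Nu 0 := by
    intro m
    induction m with
    | zero => exact fun h => h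
    | succ m ih =>
      intro h
      rw [← step_ylim, step] at h
      exact ih (nu_sec (nu_sec (nu_sec h).2).2).2
  have h0 := key n (nu_mono (by omega) hn)
  have hz : pr (Z ylim) (Z ylim) ≠ 1 := by
    intro e
    rw [pr_eq_one] at e
    have e1 := e.1
    rw [← step_ylim, rel_ylim.Z_step, pr_eq_one, pr_eq_one, pr_eq_one] at e1
    have e2 : a * Z ylim = 1 := e1.1.1.1
    rw [e.1, mul_one] at e2
    exact pr_ne_a 1 1 (by rw [pr_one, e2])
  have ha : a ≠ 1 := by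
    intro e
    exact pr_ne_a 1 1 (by rw [pr_one, e])
  rw [← step_ylim, step] at h0
  rcases h0 with e | e | e | e | e
  · rw [pr_eq_one, pr_eq_one] at e
    exact hz e.2.1
  · exact pr_ne_a _ _ e
  · rw [b_eq, pr_inj] at e
    exact ha e.1.symm
  · rw [c_eq, pr_inj] at e
    exact ha e.1.symm
  · have e' : pr 1 (pr (pr (Z ylim) (Z ylim)) (pr 1 ylim)) = d := e
    rw [d_eq, pr_inj, b_eq, pr_inj] at e'
    exact pr_ne_a _ _ e'.2.1

/-- The main algebraic statement for the limit. -/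
theorem main_ylim (k : ℕ) : Dl ylim ≤ Gam ⊔ ncl (Dl ylim) (Kn (3 * k)) :=
  main_alg step_ylim rel_ylim A_ylim k

end Pool.Agent.KS6_37.Grig
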