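import Pool.Agent.KS6_37.Grig.Limit

/-!
# The profinite completion of the Grigorchuk group acts faithfully on the tree
-/

set_option autoImplicit false

namespace Pool.Agent.KS6_37.Grig

open ProfiniteGrp.ProfiniteCompletion

/-- The action on words of length at most `n`. -/
def actHom (n : ℕ) : Gam →* Equiv.Perm {v : List Bool // v.length ≤ n} where
  toFun γ := (γ : G).subtypePerm (fun v => by rw [(tr_Gam γ.2 v).1])
  map_one' := by ext v; rfl
  map_mul' x y := by ext v; rfl

theorem mem_ker_actHom {n : ℕ} {γ : Gam} : γ ∈ (actHom n).ker ↔ Ag n (γ : G) 1 := by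
  rw [MonoidHom.mem_ker]
  constructor
  · intro h v hv
    have := congrArg (fun f : Equiv.Perm {v : List Bool // v.length ≤ n} => (f ⟨v, hv⟩).1) h
    exact this
  · intro h
    apply Equiv.ext
    intro v
    exact Subtype.ext (h v.1 v.2)

/-- The congruence subgroup of level `n`. -/
def F (n : ℕ) : FiniteIndexNormalSubgroup Gam where
  toSubgroup := (actHom n).ker
  isNormal' := inferInstance
  isFiniteIndex' := by
    have : Finite {v : List Bool // v.length ≤ n} := (List.finite_length_le Bool n).to_subtype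
    infer_instance

theorem mem_F {n : ℕ} {γ : Gam} : γ ∈ (F n).toSubgroup ↔ Ag n (γ : G) 1 := mem_ker_actHom

theorem F_anti {m n : ℕ} (h : m ≤ n) : F n ≤ F m := by
  intro γ hγ
  exact mem_F.2 ((mem_F.1 hγ).mono h)

theorem exists_F_le (L : Subgroup Gam) (hn : L.Normal) (hf : L.FiniteIndex) :
    ∃ n, (F n).toSubgroup ≤ L := by
  obtain ⟨n, h⟩ := fin_contain L hn hf
  refine ⟨n + 3, fun γ hγ => ?_⟩
  have h1 : (γ : G) ∈ Kn n := closed n γ γ.2 (fun v hv => mem_F.1 hγ v hv.le)
  obtain ⟨γ', h2, h3⟩ := h h1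
  have : γ' = γ := Subtype.ext h3
  rwa [this] at h2

/-- The profinite completion. -/
abbrev P : Type := ProfiniteGrp.ProfiniteCompletion.completion (GrpCat.of Gam)

/-- the component of `f` at `H` -/
def comp (H : FiniteIndexNormalSubgroup Gam) : P →* Gam ⧸ H.toSubgroup where
  toFun f := f.1 H
  map_one' := rfl
  map_mul' _ _ := rfl

theorem comp_map {H H' : FiniteIndexNormalSubgroup Gam} (h : H ≤ H') (f : P) :
    QuotientGroup.map _ _ (MonoidHom.id _) (show H.toSubgroup ≤ H'.toSubgroup.comap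
      (MonoidHom.id _) from h) (comp H f) = comp H' f :=
  f.2 (CategoryTheory.homOfLE h)

theorem ext_comp {f f' : P} (h : ∀ H, comp H f = comp H f') : f = f' :=
  Subtype.ext (funext h)

/-- The canonical map as a homomorphism. -/
def et : Gam →* P where
  toFun := etaFn (GrpCat.of Gam)
  map_one' := rfl
  map_mul' _ _ := rfl

theorem comp_et (H : FiniteIndexNormalSubgroup Gam) (γ : Gam) :
    comp H (et γ) = QuotientGroup.mk γ := rfl

/-- representative at level `n` -/
theorem exists_rep (H : FiniteIndexNormalSubgroup Gam) (f : P) :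
    ∃ γ : Gam, comp H f = QuotientGroup.mk γ := by
  obtain ⟨γ, h⟩ := QuotientGroup.mk_surjective (comp H f)
  exact ⟨γ, h.symm⟩

theorem comp_eq_of_le {H H' : FiniteIndexNormalSubgroup Gam} (h : H ≤ H') {f : P} {γ : Gam}
    (e : comp H f = QuotientGroup.mk γ) : comp H' f = QuotientGroup.mk γ := by
  rw [← comp_map h, e]
  rfl

theorem mk_F_eq {n : ℕ} {γ γ' : Gam}
    (e : (QuotientGroup.mk γ : Gam ⧸ (F n).toSubgroup) = QuotientGroup.mk γ') :
    Ag n (γ : G) (γ' : G) := by
  rw [QuotientGroup.eq, mem_F] at e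
  intro v hv
  have h1 := e v hv
  have h2 : ((γ⁻¹ * γ' : Gam) : G) = (γ : G)⁻¹ * (γ' : G) := rfl
  rw [h2, Equiv.Perm.mul_apply, Equiv.Perm.one_apply] at h1
  conv_lhs => rw [← h1]
  rw [ap_inv]

theorem mk_F_of_ag {n : ℕ} {γ γ' : Gam} (e : Ag n (γ : G) (γ' : G)) :
    (QuotientGroup.mk γ : Gam ⧸ (F n).toSubgroup) = QuotientGroup.mk γ' := by
  rw [QuotientGroup.eq, mem_F]
  intro v hv
  have h2 : ((γ⁻¹ * γ' : Gam) : G) = (γ : G)⁻¹ * (γ' : G) := rfl
  rw [h2, Equiv.Perm.mul_apply, Equiv.Perm.one_apply, ← e v hv, inv_ap]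

/-- The action of the profinite completion on words. -/
noncomputable def act (f : P) (v : List Bool) : List Bool :=
  ((exists_rep (F v.length) f).choose : G) v

theorem act_eq {f : P} {n : ℕ} {γ : Gam} (e : comp (F n) f = QuotientGroup.mk γ) (v : List Bool)
    (hv : v.length ≤ n) : act f v = (γ : G) v := by
  have h1 := (exists_rep (F v.length) f).choose_spec
  have h2 := comp_eq_of_le (F_anti hv) e
  rw [h1] at h2
  exact mk_F_eq h2 v le_rfl

/-- The action of the profinite completion, as a homomorphism. -/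
noncomputable def Ψ : P →* G := MonoidHom.toHomPerm
  { toFun := act
    map_one' := by
      funext v
      have h : comp (F v.length) 1 = QuotientGroup.mk 1 := rfl
      rw [act_eq h v le_rfl]
      rfl
    map_mul' := by
      intro f f'
      funext v
      obtain ⟨γ, h⟩ := exists_rep (F v.length) f
      obtain ⟨γ', h'⟩ := exists_rep (F v.length) f'
      have e : comp (F v.length) (f * f') = QuotientGroup.mk (γ * γ') := by
        rw [map_mul, h, h']
        rfl
      rw [act_eq e v le_rfl]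
      have e1 : act f' v = (γ' : G) v := act_eq h' v le_rfl
      have e2 : act f ((γ' : G) v) = (γ : G) ((γ' : G) v) :=
        act_eq h _ (by rw [(tr_Gam γ'.2 v).1])
      change ((γ * γ' : Gam) : G) v = act f (act f' v)
      rw [e1, e2]
      rfl }

theorem Ψ_apply (f : P) (v : List Bool) : Ψ f v = act f v := rfl

theorem Ψ_ag {f : P} {n : ℕ} {γ : Gam} (e : comp (F n) f = QuotientGroup.mk γ) :
    Ag n (Ψ f) (γ : G) := fun v hv => act_eq e v hv

theorem Ψ_et (γ : Gam) : Ψ (et γ) = (γ : G) := by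
  apply eq_of_ag
  intro n
  exact Ψ_ag (comp_et (F n) γ)

theorem Ψ_inj : Function.Injective Ψ := by
  rw [injective_iff_map_eq_one]
  intro f hf
  apply ext_comp
  intro H
  obtain ⟨n, hn⟩ := exists_F_le H.toSubgroup H.isNormal' H.isFiniteIndex'
  obtain ⟨γ, h⟩ := exists_rep (F n) f
  have h1 := comp_eq_of_le (show F n ≤ H from hn) h
  rw [h1, map_one]
  have h2 := Ψ_ag h
  rw [hf] at h2
  exact (QuotientGroup.eq_one_iff γ).2 (hn (mem_F.2 h2.symm))

/-- The approximations as elements of the Grigorchuk group. -/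
def YG (k : ℕ) : Gam := ⟨Y k, Y_mem k⟩

theorem YG_mk {m n : ℕ} {H : FiniteIndexNormalSubgroup Gam} (hm : F m ≤ H) (hn : F n ≤ H) :
    (QuotientGroup.mk (YG m) : Gam ⧸ H.toSubgroup) = QuotientGroup.mk (YG n) := by
  wlog h : m ≤ n generalizing m n
  · exact (this hn hm (by omega)).symm
  rw [QuotientGroup.eq]
  apply hm
  have := mk_F_of_ag (show Ag m (YG m : G) (YG n : G) from ag_Y' h)
  rwa [QuotientGroup.eq] at this

theorem exists_F (H : FiniteIndexNormalSubgroup Gam) : ∃ n, F n ≤ H :=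
  exists_F_le H.toSubgroup H.isNormal' H.isFiniteIndex'

/-- The limit of the approximations in the profinite completion. -/
noncomputable def gel : P :=
  ⟨fun H => (QuotientGroup.mk (YG (exists_F H).choose) : Gam ⧸ H.toSubgroup), by
    intro H H' π
    have hle : H ≤ H' := CategoryTheory.leOfHom π
    have h1 : F (exists_F H).choose ≤ H' := (exists_F H).choose_spec.trans hle
    exact YG_mk h1 (exists_F H').choose_spec⟩

theorem comp_gel {n : ℕ} {H : FiniteIndexNormalSubgroup Gam} (h : F n ≤ H) :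
    comp H gel = QuotientGroup.mk (YG n) :=
  YG_mk (exists_F H).choose_spec h

theorem Ψ_gel : Ψ gel = ylim := by
  apply eq_of_ag
  intro n
  exact (Ψ_ag (comp_gel (le_refl (F n)))).trans (ag_ylim n).symm

/-- The element is the limit of the approximations. -/
theorem tendsto_gel :
    Filter.Tendsto (fun k => etaFn (GrpCat.of Gam) (YG k)) Filter.atTop (nhds gel) := by
  have key : Filter.Tendsto (fun k => (etaFn (GrpCat.of Gam) (YG k)).1) Filter.atTop
      (nhds gel.1) := by
    rw [tendsto_pi_nhds]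
    intro H
    obtain ⟨n, hn⟩ := exists_F H
    apply tendsto_const_nhds.congr'
    filter_upwards [Filter.eventually_ge_atTop n] with k hk
    exact comp_gel ((F_anti hk).trans hn)
  exact tendsto_subtype_rng.2 key

theorem gel_notMem : gel ∉ Set.range (etaFn (GrpCat.of Gam)) := by
  rintro ⟨γ, h⟩
  apply ylim_notMem
  rw [← Ψ_gel, ← h]
  have := Ψ_et γ
  rw [show etaFn (GrpCat.of Gam) γ = et γ from rfl, this]
  exact γ.2

/-- The overgroup inside the profinite completion. -/
def De : Subgroup P := Subgroup.closure (Set.range (etaFn (GrpCat.of Gam)) ∪ {gel})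

theorem et_mem (γ : Gam) : et γ ∈ De := Subgroup.subset_closure (Or.inl ⟨γ, rfl⟩)

theorem Ψ_De {δ : P} (h : δ ∈ De) : Ψ δ ∈ Dl ylim := by
  have : De ≤ (Dl ylim).comap Ψ := by
    rw [De, Subgroup.closure_le]
    rintro x (⟨γ, rfl⟩ | hx)
    · rw [SetLike.mem_coe, Subgroup.mem_comap]
      rw [show etaFn (GrpCat.of Gam) γ = et γ from rfl, Ψ_et]
      exact Gam_le _ γ.2
    · rw [Set.mem_singleton_iff] at hx
      rw [hx, SetLike.mem_coe, Subgroup.mem_comap, Ψ_gel]
      exact y_mem _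
  exact this h

theorem Dl_le : Dl ylim ≤ De.map Ψ := by
  rw [Dl, Subgroup.closure_le]
  have hG : ∀ x ∈ Gam, x ∈ De.map Ψ := fun x hx => ⟨et ⟨x, hx⟩, et_mem _, Ψ_et _⟩
  intro x hx
  simp only [Set.mem_insert_iff, Set.mem_singleton_iff] at hx
  rcases hx with rfl | rfl | rfl | rfl | rfl
  · exact hG _ a_mem
  · exact hG _ b_mem
  · exact hG _ c_mem
  · exact hG _ d_mem
  · exact ⟨gel, Subgroup.subset_closure (Or.inr rfl), Ψ_gel⟩

theorem isOpen_ker (H : FiniteIndexNormalSubgroup Gam) : IsOpen ((comp H).ker : Set P) := by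
  have h1 : Continuous (fun f : (ProfiniteGrp.limitConePtAux (diagram (GrpCat.of Gam))) => f.1 H) :=
    (continuous_apply H).comp continuous_subtype_val
  have h2 : IsOpen ({(1 : Gam ⧸ H.toSubgroup)} : Set ((diagram (GrpCat.of Gam)).obj H)) := by
    have : DiscreteTopology ((diagram (GrpCat.of Gam)).obj H) := ⟨rfl⟩
    exact isOpen_discrete _
  exact h2.preimage h1

theorem csp (N : Subgroup De) (hN : N.Normal) (hf : N.FiniteIndex) :
    ∃ M : Subgroup P, M.Normal ∧ IsOpen (M : Set P) ∧ N = M.subgroupOf De := by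
  let e : Gam →* De := et.codRestrict De et_mem
  have hLn : (N.comap e).Normal := hN.comap e
  have hLf : (N.comap e).FiniteIndex := by
    constructor
    rw [Subgroup.index_comap]
    exact (inferInstance : (N.subgroupOf e.range).FiniteIndex).index_ne_zero
  let H : FiniteIndexNormalSubgroup Gam := ⟨N.comap e, hLn, hLf⟩
  obtain ⟨k, hk⟩ := fin_contain (N.comap e) hLn hLf
  refine ⟨(comp H).ker, inferInstance, isOpen_ker H, ?_⟩
  -- the two images in `G`
  have hK : Kn (3 * k) ≤ (N.comap e).map Gam.subtype := (Kn_anti (by omega)).trans hk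
  have h1 : ncl (Dl ylim) (Kn (3 * k)) ≤ (N.map De.subtype).map Ψ := by
    apply ncl_le
    · intro x hx
      obtain ⟨γ, hγ, rfl⟩ := hK hx
      exact ⟨et γ, ⟨e γ, hγ, rfl⟩, Ψ_et γ⟩
    · intro g hg x hx
      obtain ⟨δ, hδ, rfl⟩ := Dl_le hg
      obtain ⟨_, ⟨ν, hν, rfl⟩, rfl⟩ := hx
      refine ⟨δ * ν * δ⁻¹, ⟨⟨δ, hδ⟩ * ν * ⟨δ, hδ⟩⁻¹, hN.conj_mem ν hν _, rfl⟩, ?_⟩
      rw [map_mul, map_mul, map_inv]
      rfl
  have h2 : ncl (Dl ylim) (Kn (3 * k)) ≤ (comp H).ker.map Ψ := by
    apply ncl_le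
    · intro x hx
      obtain ⟨γ, hγ, rfl⟩ := hK hx
      refine ⟨et γ, ?_, Ψ_et γ⟩
      rw [SetLike.mem_coe, MonoidHom.mem_ker, comp_et]
      exact (QuotientGroup.eq_one_iff γ).2 hγ
    · intro g hg x hx
      obtain ⟨δ, hδ, rfl⟩ := Dl_le hg
      obtain ⟨μ, hμ, rfl⟩ := hx
      refine ⟨δ * μ * δ⁻¹, (inferInstance : (comp H).ker.Normal).conj_mem μ hμ _, ?_⟩
      rw [map_mul, map_mul, map_inv]
  ext δ
  have h3 := main_ylim k (Ψ_De δ.2)
  have hnz : Nz Gam (ncl (Dl ylim) (Kn (3 * k))) := fun g hg => ncl_nz _ _ g (Gam_le _ hg)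
  have h4 : ∃ γ : Gam, ∃ n ∈ ncl (Dl ylim) (Kn (3 * k)), Ψ δ = (γ : G) * n := by
    have hsub : Gam ⊔ ncl (Dl ylim) (Kn (3 * k)) ≤
        { carrier := {x | ∃ γ : Gam, ∃ n ∈ ncl (Dl ylim) (Kn (3 * k)), x = (γ : G) * n}
          one_mem' := ⟨1, 1, one_mem _, by simp⟩
          mul_mem' := by
            rintro x y ⟨γ, n, hn, rfl⟩ ⟨γ', n', hn', rfl⟩
            refine ⟨γ * γ', (γ' : G)⁻¹ * n * (γ' : G)⁻¹⁻¹ * n', mul_mem
              (hnz _ (inv_mem γ'.2) _ hn) hn', ?_⟩
            rw [Subgroup.coe_mul]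
            group
          inv_mem' := by
            rintro x ⟨γ, n, hn, rfl⟩
            refine ⟨γ⁻¹, (γ : G) * n⁻¹ * (γ : G)⁻¹, hnz _ γ.2 _ (inv_mem hn), ?_⟩
            rw [Subgroup.coe_inv]
            group } := by
      apply sup_le
      · intro x hx
        exact ⟨⟨x, hx⟩, 1, one_mem _, by simp⟩
      · intro x hx
        exact ⟨1, x, hx, by simp⟩
    exact hsub h3
  obtain ⟨γ, n, hn, h5⟩ := h4
  obtain ⟨_, ⟨ν, hν, rfl⟩, h6⟩ := h1 hn
  obtain ⟨μ, hμ, h7⟩ := h2 hn
  have h8 : μ = (ν : P) := Ψ_inj (h7.trans h6.symm)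
  have h9 : (δ : P) = et γ * ν := by
    apply Ψ_inj
    rw [h5, map_mul, Ψ_et, ← h6]
    rfl
  have h10 : δ = e γ * ν := Subtype.ext h9
  have h11 : δ ∈ N ↔ γ ∈ N.comap e := by
    rw [h10, Subgroup.mul_mem_cancel_right N hν]
    rfl
  have h12 : δ ∈ (comp H).ker.subgroupOf De ↔ γ ∈ N.comap e := by
    rw [Subgroup.mem_subgroupOf, h9, ← h8, Subgroup.mul_mem_cancel_right _ hμ, MonoidHom.mem_ker,
      comp_et]
    exact QuotientGroup.eq_one_iff γ
  rw [h11, h12]

end Pool.Agent.KS6_37.Grig
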