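import Pool.Agent.KS6_37.Grig.Tree

/-!
# The recursion defining the new element, and its exact relations
-/

set_option autoImplicit false

namespace Pool.Agent.KS6_37.Grig

/-- `z = (a c y)^4` -/
def Z (y : G) : G := (a * (c * y)) ^ 4

/-- `y ↦ (1, ((z, z), (1, y)))` with `z = (a c y)^4` -/
def step (y : G) : G := pr 1 (pr (pr (Z y) (Z y)) (pr 1 y))

/-- The exact relations satisfied by all approximations. -/
structure Rel (y : G) : Prop where
  yy : y * y = 1
  by' : b * y = y * b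
  cy : c * y = y * c
  zz : Z y * Z y = 1

theorem dih {H : Type*} [Group H] {x p : H} (hx : x * x = 1) (hp : p * p = 1)
    (hz : (x * p) ^ 4 * (x * p) ^ 4 = 1) :
    x * (x * p) ^ 4 = (x * p) ^ 4 * x ∧ p * (x * p) ^ 4 = (x * p) ^ 4 * p ∧
      (p * x) ^ 4 = (x * p) ^ 4 := by
  have hxi : x⁻¹ = x := inv_eq_of_mul_eq_one_right hx
  have hpi : p⁻¹ = p := inv_eq_of_mul_eq_one_right hp
  have h1 : p * x = (x * p)⁻¹ := by rw [mul_inv_rev, hxi, hpi]
  have h2 : (p * x) ^ 4 = (x * p) ^ 4 := by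
    rw [h1, inv_pow]; exact inv_eq_of_mul_eq_one_right hz
  refine ⟨?_, ?_, h2⟩
  · have h3 : x * (x * p) ^ 4 * x⁻¹ = (x * p) ^ 4 := by
      rw [← conj_pow, ← h2]
      congr 1
      rw [hxi, ← mul_assoc, hx, one_mul]
    rwa [mul_inv_eq_iff_eq_mul] at h3
  · have h3 : p * (x * p) ^ 4 * p⁻¹ = (x * p) ^ 4 := by
      rw [← conj_pow, ← h2]
      congr 1
      rw [hpi, mul_assoc, mul_assoc, hp, mul_one]
    rwa [mul_inv_eq_iff_eq_mul] at h3

section

variable {y : G} (h : Rel y)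
include h

theorem Rel.pp : (c * y) * (c * y) = 1 := by
  rw [mul_assoc, ← mul_assoc y c y, ← h.cy, mul_assoc c y y, h.yy, mul_one, c_c]

theorem Rel.az : a * Z y = Z y * a := (dih a_a h.pp h.zz).1
theorem Rel.pz : (c * y) * Z y = Z y * (c * y) := (dih a_a h.pp h.zz).2.1
theorem Rel.pa : (c * y * a) ^ 4 = Z y := (dih a_a h.pp h.zz).2.2

omit h in
theorem c_step (y : G) : c * step y = pr a (pr (pr (Z y) (Z y)) (pr a (c * y))) := by
  simp only [step, c_pr, d_pr, b_pr, mul_one]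

omit h in
theorem four {H : Type*} [Monoid H] (x : H) : x ^ 4 = (x * x) * (x * x) := by
  rw [show (4 : ℕ) = 2 * 2 from rfl, pow_mul, pow_two, pow_two]

theorem Rel.Z_step : Z (step y) =
    pr (pr (pr (a * Z y) (c * y * Z y)) (pr (a * Z y) (c * y * Z y)))
      (pr (pr (a * Z y) (c * y * Z y)) (pr (a * Z y) (c * y * Z y))) := by
  have e1 : (a * (c * step y)) * (a * (c * step y)) =
      pr (pr (pr (Z y) (Z y)) (pr a (c * y)) * a) (a * pr (pr (Z y) (Z y)) (pr a (c * y))) := by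
    rw [c_step]
    generalize pr (pr (Z y) (Z y)) (pr a (c * y)) = Y
    rw [a_pr, mul_assoc, ← mul_assoc a, a_pr, mul_assoc, a_a, mul_one, pr_mul]
  rw [Z, four, e1]
  have e2 : pr (Z y) (Z y) * pr a (c * y) = pr (a * Z y) (c * y * Z y) := by
    rw [pr_mul, h.az, h.pz]
  have e3 : pr a (c * y) * pr (Z y) (Z y) = pr (a * Z y) (c * y * Z y) := by
    rw [pr_mul]
  have e4 : pr (pr (Z y) (Z y)) (pr a (c * y)) * a * (pr (pr (Z y) (Z y)) (pr a (c * y)) * a) =
      pr (pr (a * Z y) (c * y * Z y)) (pr (a * Z y) (c * y * Z y)) := by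
    rw [mul_assoc, ← mul_assoc a, a_pr, mul_assoc, a_a, mul_one, pr_mul, e2, e3]
  have e5 : a * pr (pr (Z y) (Z y)) (pr a (c * y)) * (a * pr (pr (Z y) (Z y)) (pr a (c * y))) =
      pr (pr (a * Z y) (c * y * Z y)) (pr (a * Z y) (c * y * Z y)) := by
    rw [a_pr, mul_assoc, ← mul_assoc a, a_pr, mul_assoc, a_a, mul_one, pr_mul, e2, e3]
  rw [pr_mul, e4, e5]

theorem Rel.XX : pr (a * Z y) (c * y * Z y) * pr (a * Z y) (c * y * Z y) = 1 := by
  have e1 : a * Z y * (a * Z y) = 1 := by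
    nth_rewrite 1 [h.az]
    rw [mul_assoc, ← mul_assoc a a, a_a, one_mul, h.zz]
  have e2 : c * y * Z y * (c * y * Z y) = 1 := by
    nth_rewrite 1 [h.pz]
    rw [mul_assoc, ← mul_assoc (c * y) (c * y), h.pp, one_mul, h.zz]
  rw [pr_mul, e1, e2, pr_one]

theorem Rel.step : Rel (step y) where
  yy := by simp only [Grig.step, pr_mul, mul_one, h.zz, h.yy, pr_one]
  by' := by
    simp only [Grig.step, b_pr, c_pr, d_pr, pr_b, pr_c, pr_d, mul_one, one_mul, a_pr]
    rw [h.by']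
  cy := by
    simp only [Grig.step, b_pr, c_pr, d_pr, pr_b, pr_c, pr_d, mul_one, one_mul, h.cy]
  zz := by
    rw [h.Z_step]
    simp only [pr_mul (pr _ _) (pr _ _) (pr _ _) (pr _ _), h.XX, pr_one]

theorem Rel.XU : pr (a * Z y) (c * y * Z y) * pr (Z y) (Z y) = pr a (c * y) := by
  rw [pr_mul, mul_assoc, h.zz, mul_one, mul_assoc (c * y), h.zz, mul_one]

theorem Rel.XV : pr (a * Z y) (c * y * Z y) * pr a (c * y) = pr (Z y) (Z y) := by
  rw [pr_mul, h.az, mul_assoc (Z y), a_a, mul_one, h.pz, mul_assoc (Z y), h.pp, mul_one]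

/-- `s = z p` for the next approximation -/
theorem Rel.S_step : Z (Grig.step y) * (c * Grig.step y) =
    pr (pr (pr (a * Z y) (c * y * Z y)) (pr (a * Z y) (c * y * Z y)) * a)
      (pr (pr a (c * y)) (pr (Z y) (Z y))) := by
  rw [h.Z_step, c_step, pr_mul, pr_mul, h.XU, h.XV]

theorem Rel.q1_step :
    Z (Grig.step y) * (c * Grig.step y) * b * (Z (Grig.step y) * (c * Grig.step y)) * d =
      pr a (pr (pr (a * (c * y)) (c * y * a)) (pr a (Z y * b * Z y * d))) := by
  have hX := h.XX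
  rw [h.S_step]
  generalize pr (a * Z y) (c * y * Z y) = X at hX ⊢
  rw [pr_b, pr_mul, pr_d]
  have e1 : pr X X * a * a * (pr X X * a) = a := by
    rw [mul_assoc (pr X X), a_a, mul_one, ← mul_assoc, pr_mul, hX, pr_one, one_mul]
  have e2 : pr (pr a (c * y)) (pr (Z y) (Z y)) * c * pr (pr a (c * y)) (pr (Z y) (Z y)) * b =
      pr (pr (a * (c * y)) (c * y * a)) (pr a (Z y * b * Z y * d)) := by
    rw [pr_c, pr_mul, pr_b]
    congr 1
    · rw [mul_assoc, mul_assoc, ← mul_assoc a, a_pr, mul_assoc, a_a, mul_one, pr_mul]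
    · rw [pr_d, pr_mul, pr_c, h.zz, one_mul]
  rw [e1, e2]

theorem Rel.q2_step :
    Z (Grig.step y) * b * Z (Grig.step y) * d =
      pr a (pr (pr (a * (c * y)) (c * y * a))
        (pr a (Z y * (c * y) * b * (Z y * (c * y)) * d))) := by
  have hX := h.XX
  have hpz := h.pz
  have haz := h.az
  have h1 : pr (a * Z y) (c * y * Z y) * a * (pr (a * Z y) (c * y * Z y) * a) =
      pr (a * (c * y)) (c * y * a) := by
    rw [mul_assoc, ← mul_assoc a (pr _ _), a_pr, mul_assoc (pr _ _) a a, a_a, mul_one, pr_mul]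
    congr 1
    · rw [h.pz, mul_assoc a, ← mul_assoc (Z y), h.zz, one_mul]
    · rw [haz, mul_assoc, ← mul_assoc (Z y), h.zz, one_mul]
  have h2 : pr (a * Z y) (c * y * Z y) * d * (pr (a * Z y) (c * y * Z y) * c) =
      pr a (Z y * (c * y) * b * (Z y * (c * y)) * d) := by
    rw [pr_d, pr_c, pr_mul]
    congr 1
    · have := (pr_inj.1 ((pr_mul _ _ _ _).symm.trans (hX.trans pr_one.symm))).1
      rw [← mul_assoc, this, one_mul]
    · rw [h.pz]
      simp only [mul_assoc]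
  rw [h.Z_step]
  generalize pr (a * Z y) (c * y * Z y) = X at hX h1 h2 ⊢
  rw [pr_b, pr_mul, pr_d]
  have e1 : pr X X * a * pr X X = a := by
    rw [mul_assoc, a_pr, ← mul_assoc, pr_mul, hX, pr_one, one_mul]
  have e2 : pr X X * c * pr X X * b =
      pr (pr (a * (c * y)) (c * y * a)) (pr a (Z y * (c * y) * b * (Z y * (c * y)) * d)) := by
    rw [pr_c, pr_mul, pr_b, mul_assoc (X * a), mul_assoc (X * d), h1, h2]
  rw [e1, e2]

/-- `A = (s b s d)^4`, `s = z c y` -/
def _root_.Pool.Agent.KS6_37.Grig.A (y : G) : G :=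
  (Z y * (c * y) * b * (Z y * (c * y)) * d) ^ 4

/-- `B = (z b z d)^4` -/
def _root_.Pool.Agent.KS6_37.Grig.B (y : G) : G := (Z y * b * Z y * d) ^ 4

theorem Rel.A_step : A (Grig.step y) = pr 1 (pr (pr (Z y) (Z y)) (pr 1 (B y))) := by
  have ha : a ^ 4 = 1 := by rw [four, a_a, one_mul]
  rw [A, h.q1_step, pr_pow, pr_pow, pr_pow, pr_pow, h.pa, ha]
  rfl

theorem Rel.B_step : B (Grig.step y) = pr 1 (pr (pr (Z y) (Z y)) (pr 1 (A y))) := by
  have ha : a ^ 4 = 1 := by rw [four, a_a, one_mul]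
  rw [B, h.q2_step, pr_pow, pr_pow, pr_pow, pr_pow, h.pa, ha]
  rfl

end

/-- The approximations. -/
def Y : ℕ → G
  | 0 => 1
  | k + 1 => step (Y k)

theorem ad_two : (a * d) * (a * d) = pr b b := by
  rw [show (a * d) * (a * d) = (a * (d * a)) * d by simp only [mul_assoc], ada, pr_d, one_mul]

theorem da_two : (d * a) * (d * a) = pr b b := by
  rw [show (d * a) * (d * a) = d * (a * (d * a)) by simp only [mul_assoc], ada, d_pr, mul_one]

theorem ac_four : (a * c) ^ 4 = pr (pr b b) (pr b b) := by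
  have e : (a * c) * (a * c) = pr (d * a) (a * d) := by
    rw [show (a * c) * (a * c) = (a * (c * a)) * c by simp only [mul_assoc], aca, pr_c]
  rw [four, e, pr_mul, ad_two, da_two]

theorem rel_Y (k : ℕ) : Rel (Y k) := by
  induction k with
  | zero =>
    refine ⟨one_mul _, ?_, ?_, ?_⟩
    · simp [Y]
    · simp [Y]
    · simp only [Z, Y, mul_one]
      rw [ac_four, pr_mul, pr_mul, b_b, pr_one, pr_one]
  | succ k ih => exact ih.step

end Pool.Agent.KS6_37.Grig
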