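import Mathlib

/-!
# Systems of equations with exponent sums zero, in nilpotent groups
-/

set_option autoImplicit false

namespace Pool.Agent.KS6_37.Sys

open Subgroup Monoid
open scoped commutatorElement

/-- Words in the variables `x_j`, `j ∈ J`, with coefficients in `Γ`: the free product of `Γ` and
the free group on `J`. -/
abbrev Word (Γ J : Type) [Group Γ] : Type := Monoid.Coprod Γ (FreeGroup J)

variable {Γ J : Type} [Group Γ]

/-- All exponent sums (of the variables `x_j`) are zero. -/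
def Bal (w : Word Γ J) : Prop := Abelianization.of (Coprod.snd w) = 1

/-- The value of a word: `Γ` is mapped by `ρ` and the variable `x_j` is replaced by `x j`. -/
def ev {Q : Type} [Group Q] (ρ : Γ →* Q) (x : J → Q) : Word Γ J →* Q :=
  Coprod.lift ρ (FreeGroup.lift x)

/-- the variables -/
def var (j : J) : Word Γ J := Coprod.inr (FreeGroup.of j)

section

variable {Q Q' : Type} [Group Q] [Group Q']

@[simp] theorem ev_inl (ρ : Γ →* Q) (x : J → Q) (γ : Γ) : ev ρ x (Coprod.inl γ) = ρ γ := by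
  simp [ev]

@[simp] theorem ev_var (ρ : Γ →* Q) (x : J → Q) (j : J) : ev ρ x (var j) = x j := by
  simp [ev, var]

theorem hom_ext {φ ψ : Word Γ J →* Q} (h1 : ∀ γ, φ (Coprod.inl γ) = ψ (Coprod.inl γ))
    (h2 : ∀ j, φ (var j) = ψ (var j)) : φ = ψ := by
  apply Coprod.hom_ext
  · ext γ; exact h1 γ
  · ext j; exact h2 j

theorem comp_ev (f : Q →* Q') (ρ : Γ →* Q) (x : J → Q) :
    f.comp (ev ρ x) = ev (f.comp ρ) (fun j => f (x j)) := by
  apply hom_ext
  · intro γ; simp
  · intro j; simp

theorem map_ev (f : Q →* Q') (ρ : Γ →* Q) (x : J → Q) (w : Word Γ J) :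
    f (ev ρ x w) = ev (f.comp ρ) (fun j => f (x j)) w := by
  rw [← comp_ev]; rfl

theorem range_ev (ρ : Γ →* Q) (x : J → Q) :
    (ev ρ x).range = Subgroup.closure (Set.range ρ ∪ Set.range x) := by
  rw [ev, Coprod.range_lift, FreeGroup.range_lift_eq_closure, Subgroup.closure_union,
    ← MonoidHom.coe_range, Subgroup.closure_eq]

/-- The contraction property. -/
theorem contraction {φ ψ : Word Γ J →* Q} (h : ∀ γ, φ (Coprod.inl γ) = ψ (Coprod.inl γ))
    (L : Subgroup Q) [L.Normal] (hL : ∀ j, (φ (var j))⁻¹ * ψ (var j) ∈ L) {w : Word Γ J}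
    (hw : Bal w) : (φ w)⁻¹ * ψ w ∈ ⁅L, (⊤ : Subgroup Q)⁆ := by
  have h1 : ∀ w, (φ w)⁻¹ * ψ w ∈ L := by
    have e : (QuotientGroup.mk' L).comp φ = (QuotientGroup.mk' L).comp ψ := by
      apply hom_ext
      · intro γ; simp [h γ]
      · intro j
        exact QuotientGroup.eq.2 (hL j)
    intro w
    exact QuotientGroup.eq.1 (DFunLike.congr_fun e w)
  set M := ⁅L, (⊤ : Subgroup Q)⁆ with hM
  let q := QuotientGroup.mk' M
  have hc : ∀ x ∈ L, ∀ y, q x * q y = q y * q x := by
    intro x hx y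
    have h2 : ⁅x, y⁆ ∈ M := commutator_mem_commutator hx (mem_top y)
    have h3 : q ⁅x, y⁆ = 1 := (QuotientGroup.eq_one_iff _).2 h2
    rw [commutatorElement_def, map_mul, map_mul, map_mul, map_inv, map_inv,
      mul_inv_eq_one, mul_inv_eq_iff_eq_mul] at h3
    exact h3
  let δ : Word Γ J →* Q ⧸ M :=
    { toFun := fun w => q ((φ w)⁻¹ * ψ w)
      map_one' := by simp
      map_mul' := by
        intro w w'
        have e1 := hc _ (h1 w) ((φ w')⁻¹)
        calc q ((φ (w * w'))⁻¹ * ψ (w * w'))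
            = q ((φ w')⁻¹) * q ((φ w)⁻¹ * ψ w) * q (ψ w') := by
              rw [← map_mul, ← map_mul, map_mul φ, map_mul ψ]
              congr 1
              group
          _ = q ((φ w)⁻¹ * ψ w) * q ((φ w')⁻¹) * q (ψ w') := by rw [e1]
          _ = _ := by rw [mul_assoc, ← map_mul] }
  have h2 : δ = (δ.comp Coprod.inr).comp Coprod.snd := by
    apply hom_ext
    · intro γ
      simp only [MonoidHom.comp_apply, Coprod.snd_apply_inl, map_one]
      change q ((φ (Coprod.inl γ))⁻¹ * ψ (Coprod.inl γ)) = 1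
      rw [h γ, inv_mul_cancel, map_one]
    · intro j
      rfl
  have h3 : commutator (FreeGroup J) ≤ (δ.comp Coprod.inr).ker := by
    rw [_root_.commutator_def, commutator_le]
    intro x _ y _
    rw [MonoidHom.mem_ker, map_commutatorElement]
    apply commutatorElement_eq_one_iff_mul_comm.2
    exact hc _ (h1 _) _
  have h4 : Coprod.snd w ∈ commutator (FreeGroup J) := by
    rw [← Abelianization.ker_of]; exact hw
  have h5 : δ w = 1 := by
    rw [h2]
    exact h3 h4
  exact (QuotientGroup.eq_one_iff _).1 h5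

theorem eq_bot_of_le {L : Subgroup Q} [hQ : Group.IsNilpotent Q]
    (h : L ≤ ⁅L, (⊤ : Subgroup Q)⁆) : L = ⊥ := by
  obtain ⟨n, hn⟩ := Subgroup.nilpotent_iff_lowerCentralSeries.1 hQ
  have key : ∀ n, L ≤ (⊤ : Subgroup Q).lowerCentralSeries n := by
    intro n
    induction n with
    | zero => exact le_top
    | succ n ih => exact h.trans (commutator_mono ih le_rfl)
  exact le_bot_iff.1 (hn ▸ key n)

/-- Uniqueness of the solutions in nilpotent groups. -/
theorem uniq [hQ : Group.IsNilpotent Q] {φ ψ : Word Γ J →* Q}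
    (h : ∀ γ, φ (Coprod.inl γ) = ψ (Coprod.inl γ)) (w : J → Word Γ J) (hw : ∀ j, Bal (w j))
    (h1 : ∀ j, φ (var j) = φ (w j)) (h2 : ∀ j, ψ (var j) = ψ (w j)) : φ = ψ := by
  let L := Subgroup.normalClosure (Set.range fun j => (φ (var j))⁻¹ * ψ (var j))
  have hL : ∀ j, (φ (var j))⁻¹ * ψ (var j) ∈ L := fun j => subset_normalClosure ⟨j, rfl⟩
  have h3 : L ≤ ⁅L, (⊤ : Subgroup Q)⁆ := by
    apply normalClosure_le_normal
    rintro _ ⟨j, rfl⟩
    have := contraction h L hL (hw j)
    rw [← h1, ← h2] at this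
    exact this
  have h4 := eq_bot_of_le h3
  apply hom_ext h
  intro j
  have := hL j
  rw [h4, mem_bot, inv_mul_eq_one] at this
  exact this

/-- Existence of solutions in nilpotent groups. -/
theorem exis [hQ : Group.IsNilpotent Q] (ρ : Γ →* Q) (w : J → Word Γ J) (hw : ∀ j, Bal (w j)) :
    ∃ x : J → Q, ∀ j, x j = ev ρ x (w j) := by
  obtain ⟨n, hn⟩ := Subgroup.nilpotent_iff_lowerCentralSeries.1 hQ
  let s : ℕ → J → Q := fun n => Nat.rec (fun _ => 1) (fun _ x j => ev ρ x (w j)) n
  have hs : ∀ n j, s (n + 1) j = ev ρ (s n) (w j) := fun _ _ => rfl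
  have key : ∀ n j, (s n j)⁻¹ * s (n + 1) j ∈ (⊤ : Subgroup Q).lowerCentralSeries n := by
    intro n
    induction n with
    | zero => intro j; exact mem_top _
    | succ n ih =>
      intro j
      rw [hs n, hs (n + 1)]
      exact contraction (by simp) _ (by intro j; simpa using ih j) (hw j)
  refine ⟨s n, fun j => ?_⟩
  have := key n j
  rw [hn, mem_bot, inv_mul_eq_one] at this
  exact this

end

end Pool.Agent.KS6_37.Sys
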