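import Pool.Agent.KS6_37.Grig.Two

/-!
# The largest countable overgroup, and the set of all `g`
-/

set_option autoImplicit false

namespace Pool.Agent.KS6_37.Grig

open Pool.Agent.KS6_37.Sys ProfiniteGrp.ProfiniteCompletion

theorem De_eq : De = Subgroup.closure (Set.range (Crit.et Gam) ∪ {gel}) := rfl

/-- There is an element as in the question. -/
theorem exists_g : ∃ g : Crit.Hat Gam, g ∉ Set.range (Crit.et Gam) ∧
    Crit.HasCSP (Subgroup.closure (Set.range (Crit.et Gam) ∪ {g})) :=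
  ⟨gel, gel_notMem, fun N hN hf => csp N hN hf⟩

theorem closure_mul {P : Type} [Group P] (S : Set P) {s : P} (hs : s ∈ S) (g : P) :
    Subgroup.closure (S ∪ {s * g}) = Subgroup.closure (S ∪ {g}) := by
  have h1 : s ∈ Subgroup.closure (S ∪ {s * g}) := Subgroup.subset_closure (Or.inl hs)
  have h2 : s ∈ Subgroup.closure (S ∪ {g}) := Subgroup.subset_closure (Or.inl hs)
  apply le_antisymm
  · rw [Subgroup.closure_le]
    rintro x (hx | rfl)
    · exact Subgroup.subset_closure (Or.inl hx)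
    · exact mul_mem h2 (Subgroup.subset_closure (Or.inr rfl))
  · rw [Subgroup.closure_le]
    rintro x (hx | rfl)
    · exact Subgroup.subset_closure (Or.inl hx)
    · have h3 : s⁻¹ * (s * x) ∈ Subgroup.closure (S ∪ {s * x}) :=
        mul_mem (inv_mem h1) (Subgroup.subset_closure (Or.inr rfl))
      rwa [inv_mul_cancel_left] at h3

/-- The elements as in the question are dense. -/
theorem dense_g : Dense {g : Crit.Hat Gam | g ∉ Set.range (Crit.et Gam) ∧
    Crit.HasCSP (Subgroup.closure (Set.range (Crit.et Gam) ∪ {g}))} := by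
  obtain ⟨g, hg1, hg2⟩ := exists_g
  have h1 : Dense (Set.range fun γ => Crit.et Gam γ * g) := by
    have h2 : DenseRange (etaFn (GrpCat.of Gam)) := denseRange _
    have h3 : DenseRange ((Homeomorph.mulRight g) ∘ (etaFn (GrpCat.of Gam))) :=
      (Homeomorph.mulRight g).surjective.denseRange.comp h2 (Homeomorph.mulRight g).continuous
    exact h3
  refine h1.mono ?_
  rintro _ ⟨γ, rfl⟩
  constructor
  · rintro ⟨γ', e⟩
    apply hg1
    refine ⟨γ⁻¹ * γ', ?_⟩
    rw [map_mul, e, map_inv, inv_mul_cancel_left]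
  · have := closure_mul (Set.range (Crit.et Gam)) ⟨γ, rfl⟩ g
    change Crit.HasCSP (Subgroup.closure (Set.range (Crit.et Gam) ∪ {Crit.et Gam γ * g}))
    rw [this]
    exact hg2

theorem gen_one (g : Crit.Hat Gam) : Crit.gen (fun _ : Fin 1 => g) =
    Subgroup.closure (Set.range (Crit.et Gam) ∪ {g}) := by
  rw [Crit.gen, Set.range_const]

/-- The elements as in the question are countable in number. -/
theorem countable_g : {g : Crit.Hat Gam | g ∉ Set.range (Crit.et Gam) ∧
    Crit.HasCSP (Subgroup.closure (Set.range (Crit.et Gam) ∪ {g}))}.Countable := by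
  have h1 := Crit.countable_tuples (J := Fin 1) nilQ_Gam
  refine (h1.image (fun g => g 0)).mono ?_
  rintro g ⟨_, hg⟩
  refine ⟨fun _ => g, ?_, rfl⟩
  rw [Set.mem_ofPred_eq, gen_one]
  exact hg

theorem fg_over (g : Crit.Hat Gam) :
    (Subgroup.closure (Set.range (Crit.et Gam) ∪ {g})).FG := by
  have h1 : (⊤ : Subgroup Gam) = Subgroup.closure
      {⟨a, a_mem⟩, ⟨b, b_mem⟩, ⟨c, c_mem⟩, ⟨d, d_mem⟩} := by
    apply (Subgroup.map_injective Gam.subtype_injective)
    rw [← MonoidHom.range_eq_map, Subgroup.range_subtype, MonoidHom.map_closure]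
    rw [Set.image_insert_eq, Set.image_insert_eq, Set.image_insert_eq, Set.image_singleton]
    rfl
  have h2 : Set.range (Crit.et Gam) = ((⊤ : Subgroup Gam).map (Crit.et Gam) : Set (Crit.Hat Gam)) := by
    rw [← MonoidHom.range_eq_map, MonoidHom.coe_range]
  have h3 : Subgroup.closure (Set.range (Crit.et Gam) ∪ {g}) = Subgroup.closure
      ((Crit.et Gam) '' {⟨a, a_mem⟩, ⟨b, b_mem⟩, ⟨c, c_mem⟩, ⟨d, d_mem⟩} ∪ {g}) := by
    rw [Subgroup.closure_union, Subgroup.closure_union, h2, Subgroup.closure_eq, h1,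
      MonoidHom.map_closure]
  rw [h3]
  refine (Subgroup.fg_iff _).2 ⟨_, rfl, ?_⟩
  exact ((Set.toFinite _).image _).union (Set.finite_singleton g)

/-- The largest one. -/
theorem largest_Gam : ∃ T : Subgroup (Crit.Hat Gam), (T : Set (Crit.Hat Gam)).Countable ∧
    Set.range (Crit.et Gam) ⊂ (T : Set (Crit.Hat Gam)) ∧ Crit.HasCSP T ∧
    ∀ Δ : Subgroup (Crit.Hat Gam), Set.range (Crit.et Gam) ⊆ (Δ : Set (Crit.Hat Gam)) → Δ.FG →
      Crit.HasCSP Δ → Δ ≤ T := by
  obtain ⟨T, h1, h2, h3, h4⟩ := Crit.largest nilQ_Gam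
  have h4' : ∀ Δ : Subgroup (Crit.Hat Gam), Set.range (Crit.et Gam) ⊆ (Δ : Set (Crit.Hat Gam)) →
      Δ.FG → Crit.HasCSP Δ → Δ ≤ T := fun Δ hΔ => h4 Δ (fun γ => hΔ ⟨γ, rfl⟩)
  refine ⟨T, h1, ?_, h3, h4'⟩
  obtain ⟨g, hg1, hg2⟩ := exists_g
  have h5 := h4' _ (fun x hx => Subgroup.subset_closure (Or.inl hx)) (fg_over g) hg2
  constructor
  · rintro _ ⟨γ, rfl⟩
    exact h2 γ
  · intro h6
    exact hg1 (h6 (h5 (Subgroup.subset_closure (Or.inr rfl))))

end Pool.Agent.KS6_37.Grig
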