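import Pool.Agent.KS6_37.Grig.Crit2
import Pool.Agent.KS6_37.Grig.Profinite
import Pool.Agent.KS6_37.Grig.Free

/-!
# Finite quotients of the Grigorchuk group are `2`-groups; transfer to the profinite completion
-/

set_option autoImplicit false

namespace Pool.Agent.KS6_37.Grig

open Pool.Agent.KS6_37.Sys

theorem tr_pow {g : G} (hg : Tr g) (n : ℕ) : Tr (g ^ n) := by
  induction n with
  | zero => exact tr_one
  | succ n ih => rw [pow_succ]; exact tr_mul ih hg

theorem ag_sq {h : G} (hh : Tr h) (n : ℕ) (e : Ag n h 1) : Ag (n + 1) (h * h) 1 := by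
  intro v hv
  rcases Nat.lt_or_ge n v.length with h1 | h1
  · have h2 : v.length = n + 1 := by omega
    obtain ⟨u, x, rfl⟩ : ∃ u x, v = u ++ [x] := by
      have h3 : v ≠ [] := by rintro rfl; simp at h2
      exact ⟨v.dropLast, v.getLast h3, (List.dropLast_append_getLast h3).symm⟩
    have h3 : u.length = n := by simpa using h2
    have hu : h u = u := e u (by omega)
    have key : ∀ x : Bool, ∃ x' : Bool, h (u ++ [x]) = u ++ [x'] := by
      intro x
      obtain ⟨w, hw⟩ := (hh u).2 [x]
      rw [hu] at hw
      have h4 := (hh (u ++ [x])).1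
      rw [hw] at h4
      simp only [List.length_append, List.length_singleton, Nat.add_left_cancel_iff] at h4
      obtain ⟨x', rfl⟩ := List.length_eq_one_iff.1 h4
      exact ⟨x', hw⟩
    obtain ⟨x', hx'⟩ := key x
    obtain ⟨x'', hx''⟩ := key x'
    rw [Equiv.Perm.mul_apply, hx', hx'', Equiv.Perm.one_apply]
    by_cases h5 : x' = x
    · subst h5
      rw [← hx'', hx']
    · have h6 : x'' ≠ x' := by
        rintro rfl
        have h7 : h (u ++ [x]) = h (u ++ [x'']) := by rw [hx', hx'']
        have h8 := h.injective h7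
        apply h5
        simpa using h8.symm
      have h9 : x'' = x := by
        cases x <;> cases x' <;> cases x'' <;> simp_all
      rw [h9]
  · rw [Equiv.Perm.mul_apply, e v h1, Equiv.Perm.one_apply, e v h1]
    rfl

theorem ag_pow_two {g : G} (hg : Tr g) (n : ℕ) : Ag n (g ^ 2 ^ n) 1 := by
  induction n with
  | zero =>
    intro v hv
    have h1 : v = [] := List.eq_nil_of_length_eq_zero (by omega)
    subst h1
    exact List.eq_nil_of_length_eq_zero (tr_pow hg _ []).1
  | succ n ih =>
    rw [pow_succ 2 n, pow_mul, pow_two]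
    exact ag_sq (tr_pow hg _) n ih

/-- The finite quotients of the Grigorchuk group are `2`-groups. -/
theorem isPGroup_quot (L : Subgroup Gam) (hn : L.Normal) (hf : L.FiniteIndex) :
    IsPGroup 2 (Gam ⧸ L) := by
  obtain ⟨n, h⟩ := exists_F_le L hn hf
  intro x
  obtain ⟨γ, rfl⟩ := QuotientGroup.mk_surjective x
  refine ⟨n, ?_⟩
  rw [← QuotientGroup.mk_pow, QuotientGroup.eq_one_iff]
  apply h
  rw [mem_F]
  have h1 := ag_pow_two (tr_Gam γ.2) n
  rwa [← Subgroup.coe_pow] at h1

theorem nilQ_Gam : Crit.NilQ Gam := by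
  intro L hn hf
  exact (isPGroup_quot L hn hf).isNilpotent

instance : Countable Gam := by
  have h : (Subgroup.closure ({a, b, c, d} : Set G) : Set G).Countable :=
    Crit.countable_closure (Set.to_countable _)
  exact h.to_subtype

/-- The criterion for the Grigorchuk group. -/
theorem crit_Gam {J : Type} [Finite J] (g : J → Crit.Hat Gam) :
    Crit.HasCSP (Crit.gen g) ↔
      (∃ w : J → Word Gam J, (∀ j, Bal (w j)) ∧ ∀ j, g j = Sys.ev (Crit.et Gam) g (w j)) ∧
      ∀ N : Subgroup (Crit.gen g), ∀ _ : N.Normal, N.FiniteIndex →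
        IsPGroup 2 (Crit.gen g ⧸ N) := by
  constructor
  · intro h
    refine ⟨Crit.sol_of_csp g h, fun N hN hf => ?_⟩
    exact (isPGroup_quot _ (Crit.tr (Crit.et_mem g) N hN hf).isNormal'
      (Crit.tr (Crit.et_mem g) N hN hf).isFiniteIndex').of_surjective _
      (Crit.csp_surj (Crit.et_mem g) h N hN hf)
  · rintro ⟨⟨w, hw, hg⟩, hn⟩
    apply Crit.csp_of_sol g w hw hg
    intro N hN hf
    exact (hn N hN hf).isNilpotent

/-! ### Transfer of the free monoid -/

theorem gel_gel : gel * gel = 1 := by
  apply Ψ_inj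
  rw [map_mul, Ψ_gel, map_one]
  exact rel_ylim.yy

theorem free_monoid : ∃ x ∈ De, ∃ y ∈ De, Function.Injective (FreeMonoid.lift ![x, y]) := by
  obtain ⟨x, hx, ex⟩ := Dl_le (L_mem false false false)
  obtain ⟨y, hy, ey⟩ := Dl_le (L_mem false false true)
  refine ⟨x, hx, y, hy, ?_⟩
  let e : Fin 2 → Bool := ![false, true]
  have he : Function.Injective e := by
    intro i j
    fin_cases i <;> fin_cases j <;> simp [e]
  have key : ∀ l : List (Fin 2), Ψ (FreeMonoid.lift ![x, y] (FreeMonoid.ofList l)) =
      W false false (l.map e) := by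
    intro l
    induction l with
    | nil => simp [W_nil]
    | cons i l ih =>
      rw [FreeMonoid.ofList_cons, map_mul, map_mul, ih, List.map_cons, W_cons,
        FreeMonoid.lift_eval_of]
      congr 1
      fin_cases i
      · exact ex
      · exact ey
  intro u v h
  have h1 := key (FreeMonoid.toList u)
  have h2 := key (FreeMonoid.toList v)
  rw [FreeMonoid.ofList_toList] at h1 h2
  rw [h, h2] at h1
  have h3 := W_injective false false h1
  have h4 := List.map_injective_iff.2 he h3
  exact FreeMonoid.toList.injective h4.symm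

end Pool.Agent.KS6_37.Grig
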